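import Mathlib
import Pool.Agent.W2helper64.EN.Gen
import Pool.Agent.H373R2.T7.SupE2

set_option autoImplicit false

/-! The supremum over all frequencies, for all initial segments, and for dilated functions. -/

namespace Pool.Agent.W2helper64.EN

open Finset Pool.Agent.H373R2.T7
open Pool.Agent.H807R2.Dav

theorem sup_all (U K : ℕ) : ∃ B0 : ℕ, ∀ E : ℕ, ∃ N0 : ℕ, ∀ N : ℕ, N0 ≤ N → ∀ z : ℕ,
    Real.log N ^ B0 ≤ z → (z : ℝ) ≤ Real.log N ^ E → ∀ Y : ℕ, Y ≤ K * N → ∀ α : ℝ,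
    ‖∑ n ∈ Icc 1 Y, ((ArithmeticFunction.vonMangoldt n - lamz z n : ℝ) : ℂ) * ee ((n : ℝ) * α)‖ ≤
      N / Real.log N ^ U := by
  obtain ⟨B1, hsup⟩ := sup_diff (U + 1)
  refine ⟨B1 + 1, fun E => ?_⟩
  obtain ⟨m1, h1⟩ := hsup (E + 1)
  obtain ⟨m2, h2⟩ := Vz_inv_small E
  obtain ⟨m3, h3⟩ := ev_L' (2 ^ B1 + 2 * 2 ^ E + K * 2 ^ (U + 1) + Real.log (K + 1) + 4)
  obtain ⟨m4, h4⟩ := ev_log' (U + 3) 1
  refine ⟨m1 ^ 2 + m2 + m3 + m4 + 4, fun N hN z hz1 hz2 Y hY α => ?_⟩
  have hL := h3 N (by omega)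
  have a4 := h4 N (by omega)
  rw [one_mul] at a4
  have hNr : (4 : ℝ) ≤ N := by exact_mod_cast (by omega : 4 ≤ N)
  have hN0 : (0 : ℝ) < N := by linarith
  obtain ⟨L, hLd⟩ : ∃ L : ℝ, L = Real.log (N : ℝ) := ⟨_, rfl⟩
  have hVz := h2 N (by omega)
  rw [← hLd] at hL a4 hz1 hz2 hVz ⊢
  have hlK : 0 ≤ Real.log ((K : ℝ) + 1) := Real.log_nonneg (by
    have : (0 : ℝ) ≤ K := Nat.cast_nonneg _
    linarith)
  have hp1 : (1 : ℝ) ≤ 2 ^ B1 := one_le_pow₀ (by norm_num)
  have hp2 : (1 : ℝ) ≤ 2 ^ E := one_le_pow₀ (by norm_num)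
  have hp3 : (0 : ℝ) ≤ K * 2 ^ (U + 1) := by positivity
  have hL4 : 4 ≤ L := by linarith
  have hL1 : 1 ≤ L := by linarith
  have hL0 : 0 < L := by linarith
  have hz : 1 ≤ z := by
    have : (1 : ℝ) ≤ z := (one_le_pow₀ hL1).trans hz1
    exact_mod_cast this
  have hV := hVz z hz hz2
  have hs0 : 0 < √(N : ℝ) := Real.sqrt_pos.2 hN0
  have hss : √(N : ℝ) * √(N : ℝ) = N := Real.mul_self_sqrt hN0.le
  have hK0 : (0 : ℝ) ≤ K := Nat.cast_nonneg _
  have hYr : (Y : ℝ) ≤ K * N := by exact_mod_cast hY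
  rcases le_or_gt (N : ℝ) (Y * L ^ (U + 3)) with hcase | hcase
  · -- long sums
    have hYs : √(N : ℝ) ≤ Y := by
      have h5 : √(N : ℝ) * L ^ (U + 3) ≤ Y * L ^ (U + 3) := by
        refine le_trans ?_ hcase
        calc √(N : ℝ) * L ^ (U + 3) ≤ √(N : ℝ) * √(N : ℝ) := mul_le_mul_of_nonneg_left a4 hs0.le
          _ = N := hss
      exact le_of_mul_le_mul_right h5 (by positivity)
    have hY0 : (0 : ℝ) < Y := lt_of_lt_of_le hs0 hYs
    have hYm : m1 ≤ Y := by
      have h5 : (m1 : ℝ) ≤ √(N : ℝ) := by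
        apply Real.le_sqrt_of_sq_le
        have : m1 ^ 2 ≤ N := by omega
        exact_mod_cast this
      exact_mod_cast h5.trans hYs
    have hlogY1 : L / 2 ≤ Real.log Y := by
      have h5 := Real.log_le_log hs0 hYs
      rw [Real.log_sqrt hN0.le, ← hLd] at h5
      exact h5
    have hlogY2 : Real.log Y ≤ 2 * L := by
      have h5 : (Y : ℝ) ≤ (K + 1) * N := by nlinarith
      have h6 := Real.log_le_log hY0 h5
      rw [Real.log_mul (by positivity) hN0.ne', ← hLd] at h6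
      linarith
    have hlY0 : 0 < Real.log Y := by linarith
    have c1 : Real.log Y ^ B1 ≤ z := by
      calc Real.log Y ^ B1 ≤ (2 * L) ^ B1 := pow_le_pow_left₀ hlY0.le hlogY2 _
        _ = 2 ^ B1 * L ^ B1 := mul_pow _ _ _
        _ ≤ L * L ^ B1 := mul_le_mul_of_nonneg_right (by linarith) (by positivity)
        _ = L ^ (B1 + 1) := by ring
        _ ≤ z := hz1
    have c2 : (z : ℝ) ≤ Real.log Y ^ (E + 1) := by
      have h5 : L ≤ 2 * Real.log Y := by linarith
      calc (z : ℝ) ≤ L ^ E := hz2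
        _ ≤ (2 * Real.log Y) ^ E := pow_le_pow_left₀ hL0.le h5 _
        _ = 2 ^ E * Real.log Y ^ E := mul_pow _ _ _
        _ ≤ Real.log Y * Real.log Y ^ E := by
            apply mul_le_mul_of_nonneg_right _ (by positivity)
            linarith
        _ = _ := by ring
    refine (h1 Y hYm z c1 c2 α).trans ?_
    have h5 : (L / 2) ^ (U + 1) ≤ Real.log Y ^ (U + 1) := pow_le_pow_left₀ (by linarith) hlogY1 _
    calc (Y : ℝ) / Real.log Y ^ (U + 1) ≤ (K * N) / (L / 2) ^ (U + 1) :=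
          div_le_div₀ (by positivity) hYr (by positivity) h5
      _ = (K * 2 ^ (U + 1) / L) * (N / L ^ U) := by
          rw [div_pow, pow_succ L]
          field_simp
      _ ≤ 1 * (N / L ^ U) := by
          apply mul_le_mul_of_nonneg_right _ (by positivity)
          rw [div_le_one hL0]
          linarith
      _ = _ := one_mul _
  · -- short sums
    have h5 : ∀ n ∈ Icc 1 Y, ‖((ArithmeticFunction.vonMangoldt n - lamz z n : ℝ) : ℂ) * ee ((n : ℝ) * α)‖ ≤ 2 * L := by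
      intro n hn
      rw [mem_Icc] at hn
      rw [norm_mul, norm_ee, mul_one, Complex.norm_real, Real.norm_eq_abs]
      have hn1 : (1 : ℝ) ≤ n := by exact_mod_cast hn.1
      have hnY : (n : ℝ) ≤ Y := by exact_mod_cast hn.2
      have h6 : ArithmeticFunction.vonMangoldt n ≤ 2 * L := by
        refine ArithmeticFunction.vonMangoldt_le_log.trans ?_
        have h7 : (n : ℝ) ≤ (K + 1) * N := by nlinarith
        have h8 := Real.log_le_log (by linarith) h7
        rw [Real.log_mul (by positivity) hN0.ne', ← hLd] at h8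
        linarith
      have h7 : (0 : ℝ) ≤ ArithmeticFunction.vonMangoldt n := ArithmeticFunction.vonMangoldt_nonneg
      have h8 := lamz_nonneg z n
      have h9 : lamz z n ≤ L := by
        unfold lamz
        split_ifs
        · exact hV
        · exact hL0.le
      rw [abs_le]
      constructor <;> linarith
    refine (norm_sum_le _ _).trans ((sum_le_sum h5).trans ?_)
    rw [sum_const, Nat.card_Icc, nsmul_eq_mul, Nat.add_sub_cancel, le_div_iff₀ (by positivity)]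
    have h6 : (Y : ℝ) * (2 * L) * L ^ U ≤ Y * L ^ (U + 3) := by
      have h7 : 2 * L * L ^ U ≤ L ^ (U + 3) := by
        have h8 : L ^ (U + 3) = L ^ 2 * (L * L ^ U) := by rw [pow_add]; ring
        rw [h8]
        have h9 : 2 ≤ L ^ 2 := by nlinarith
        have h10 : 0 ≤ L * L ^ U := by positivity
        nlinarith
      calc (Y : ℝ) * (2 * L) * L ^ U = Y * (2 * L * L ^ U) := by ring
        _ ≤ _ := mul_le_mul_of_nonneg_left h7 (Nat.cast_nonneg _)
    linarith

/-- `Λ - λ_z` dilated by `b`, truncated at `Y` -/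
noncomputable def dl (z b Y n : ℕ) : ℂ :=
  if n ≤ Y ∧ b ∣ n then ((ArithmeticFunction.vonMangoldt (n / b) - lamz z (n / b) : ℝ) : ℂ) else 0

lemma sum_dl (z b Y H : ℕ) (hb : 1 ≤ b) (α : ℝ) :
    ∑ n ∈ Icc 1 H, dl z b Y n * ee ((n : ℝ) * α) =
      ∑ k ∈ Icc 1 (min Y H / b), ((ArithmeticFunction.vonMangoldt k - lamz z k : ℝ) : ℂ) * ee ((k : ℝ) * (b * α)) := by
  classical
  have h1 : ∑ n ∈ Icc 1 H, dl z b Y n * ee ((n : ℝ) * α) =
      ∑ n ∈ (Icc 1 H).filter (fun n => n ≤ Y ∧ b ∣ n),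
        ((ArithmeticFunction.vonMangoldt (n / b) - lamz z (n / b) : ℝ) : ℂ) * ee ((n : ℝ) * α) := by
    rw [sum_filter]
    apply sum_congr rfl
    intro n _
    unfold dl
    split_ifs
    · rfl
    · rw [zero_mul]
  rw [h1]
  symm
  apply sum_bij (fun k _ => b * k)
  · intro k hk
    rw [mem_Icc] at hk
    have h2 : b * k ≤ min Y H := by
      have := (Nat.le_div_iff_mul_le (by omega : 0 < b)).1 hk.2
      rwa [mul_comm] at this
    rw [mem_filter, mem_Icc]
    refine ⟨⟨Nat.mul_pos (by omega) (by omega), h2.trans (min_le_right _ _)⟩, h2.trans (min_le_left _ _), dvd_mul_right _ _⟩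
  · intro k _ k' _ h
    exact Nat.eq_of_mul_eq_mul_left (by omega) h
  · intro n hn
    rw [mem_filter, mem_Icc] at hn
    obtain ⟨⟨h2, h3⟩, h4, k, rfl⟩ := hn
    refine ⟨k, ?_, rfl⟩
    rw [mem_Icc, Nat.le_div_iff_mul_le (by omega), mul_comm]
    refine ⟨?_, le_min h4 h3⟩
    rcases Nat.eq_zero_or_pos k with h5 | h5
    · subst h5; omega
    · exact h5
  · intro k _
    rw [Nat.mul_div_cancel_left _ (by omega : 0 < b)]
    congr 2
    push_cast
    ring

end Pool.Agent.W2helper64.EN
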