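import Mathlib
import Pool.Agent.W2helper64.EN.Sup

set_option autoImplicit false

/-! One pair of coefficients and one length: the sum over the family of the errors. -/

namespace Pool.Agent.W2helper64.EN

open Finset Pool.Agent.H373R2.T7
open Pool.Agent.H807R2.Dav

/-- `Λ` dilated by `b` on the integers -/
noncomputable def FI (b : ℕ) (k : ℤ) : ℝ := if (b : ℤ) ∣ k then lamI (k / b) else 0

/-- the model dilated by `b` on the integers -/
noncomputable def GI (z b : ℕ) (k : ℤ) : ℝ := if (b : ℤ) ∣ k then lamzI z (k / b) else 0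

/-- the difference of the correlation and its model -/
noncomputable def Rr (z a b : ℕ) (c : ℤ) (Y : ℕ) : ℝ :=
  ∑ t ∈ Icc 1 Y, (FI b t * FI a (t + c) - GI z b t * GI z a (t + c))

lemma FI_nonneg (b : ℕ) (k : ℤ) : 0 ≤ FI b k := by
  unfold FI
  split_ifs
  · exact lamI_nonneg _
  · exact le_rfl

lemma GI_nonneg (z b : ℕ) (k : ℤ) : 0 ≤ GI z b k := by
  unfold GI
  split_ifs
  · exact lamzI_nonneg _ _
  · exact le_rfl

lemma FI_of_le {b : ℕ} (hb : 1 ≤ b) {k : ℤ} (hk : k ≤ 0) : FI b k = 0 := by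
  unfold FI
  split_ifs with h
  · obtain ⟨m, rfl⟩ := h
    have hb0 : (0 : ℤ) < b := by exact_mod_cast hb
    rw [Int.mul_ediv_cancel_left _ hb0.ne']
    unfold lamI
    rw [if_neg]
    intro h1
    nlinarith
  · rfl

lemma GI_of_le {z b : ℕ} (hb : 1 ≤ b) {k : ℤ} (hk : k ≤ 0) : GI z b k = 0 := by
  unfold GI
  split_ifs with h
  · obtain ⟨m, rfl⟩ := h
    have hb0 : (0 : ℤ) < b := by exact_mod_cast hb
    rw [Int.mul_ediv_cancel_left _ hb0.ne']
    unfold lamzI
    rw [if_neg]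
    intro h1
    nlinarith
  · rfl

lemma FI_mul {b : ℕ} (hb : 1 ≤ b) {m : ℕ} (hm : 1 ≤ m) :
    FI b ((b * m : ℕ) : ℤ) = ArithmeticFunction.vonMangoldt m := by
  unfold FI
  have hb0 : (0 : ℤ) < b := by exact_mod_cast hb
  rw [Nat.cast_mul, if_pos (dvd_mul_right _ _), Int.mul_ediv_cancel_left _ hb0.ne']
  unfold lamI
  rw [if_pos (by exact_mod_cast hm), Int.toNat_natCast]

lemma GI_mul {z b : ℕ} (hb : 1 ≤ b) {m : ℕ} (hm : 1 ≤ m) : GI z b ((b * m : ℕ) : ℤ) = lamz z m := by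
  unfold GI
  have hb0 : (0 : ℤ) < b := by exact_mod_cast hb
  rw [Nat.cast_mul, if_pos (dvd_mul_right _ _), Int.mul_ediv_cancel_left _ hb0.ne']
  unfold lamzI
  rw [if_pos (by exact_mod_cast hm), Int.toNat_natCast]

lemma FI_ndvd {b n : ℕ} (h : ¬ b ∣ n) : FI b (n : ℤ) = 0 := by
  unfold FI
  rw [if_neg]
  intro h1
  exact h (Int.natCast_dvd_natCast.1 h1)

lemma GI_ndvd {z b n : ℕ} (h : ¬ b ∣ n) : GI z b (n : ℤ) = 0 := by
  unfold GI
  rw [if_neg]
  intro h1
  exact h (Int.natCast_dvd_natCast.1 h1)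

lemma dl_eq (z b Y : ℕ) (hb : 1 ≤ b) {n : ℕ} (hn : 1 ≤ n) (hnY : n ≤ Y) :
    dl z b Y n = ((FI b n - GI z b n : ℝ) : ℂ) := by
  unfold dl
  by_cases h : b ∣ n
  · rw [if_pos ⟨hnY, h⟩]
    obtain ⟨m, rfl⟩ := h
    have hm : 1 ≤ m := by
      rcases Nat.eq_zero_or_pos m with h5 | h5
      · subst h5; omega
      · exact h5
    rw [FI_mul hb hm, GI_mul hb hm, Nat.mul_div_cancel_left _ (by omega : 0 < b)]
  · rw [if_neg (fun hc => h hc.2), FI_ndvd h, GI_ndvd h]
    simp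

lemma fz_dl (z b Y H : ℕ) (hb : 1 ≤ b) (hYH : Y ≤ H) (k : ℤ) (hk : k ≤ Y) :
    fz (dl z b Y) H k = ((FI b k - GI z b k : ℝ) : ℂ) := by
  unfold fz
  split_ifs with h
  · obtain ⟨n, rfl⟩ := Int.eq_ofNat_of_zero_le (by omega : 0 ≤ k)
    rw [Int.toNat_natCast]
    exact dl_eq z b Y hb (by omega) (by omega)
  · have hk0 : k ≤ 0 := by
      by_contra hcon
      exact h ⟨by omega, by omega⟩
    rw [FI_of_le hb hk0, GI_of_le hb hk0]
    simp

lemma fz_dl_gt (z b Y H : ℕ) (k : ℤ) (hk : (Y : ℤ) < k) : fz (dl z b Y) H k = 0 := by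
  unfold fz
  split_ifs with h
  · unfold dl
    rw [if_neg]
    rintro ⟨h1, _⟩
    omega
  · rfl

lemma energy_neg (p x : ℕ) (s : ℕ → ℤ) : energy p x (fun m => - s m) = energy p x s := by
  unfold energy
  congr 1
  apply filter_congr
  intro q _
  rw [sum_neg_distrib, sum_neg_distrib, neg_inj]

/-- the change of variables for the first term -/
lemma shift_sum (z a b : ℕ) (ha : 1 ≤ a) (hb : 1 ≤ b) (c : ℤ) (Y A H : ℕ) (hYH : Y ≤ H)
    (hA : (Y : ℤ) + c ≤ A) :
    ∑ t ∈ Icc 1 Y, (((FI b t - GI z b t) * FI a (t + c) : ℝ) : ℂ) =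
      ∑ u ∈ Icc 1 A, ((FI a u : ℝ) : ℂ) * fz (dl z b Y) H (u + -c) := by
  refine sum_bij_ne_zero (fun t _ _ => ((t : ℤ) + c).toNat) ?_ ?_ ?_ ?_
  · intro t ht hne
    have h1 : (1 : ℤ) ≤ t + c := by
      by_contra hcon
      apply hne
      rw [FI_of_le ha (by omega), mul_zero]
      simp
    rw [mem_Icc] at ht ⊢
    omega
  · intro t ht hne t' ht' hne' h
    have key : ∀ t : ℕ, (((FI b t - GI z b t) * FI a (t + c) : ℝ) : ℂ) ≠ 0 → (1 : ℤ) ≤ t + c := by
      intro t hne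
      by_contra hcon
      apply hne
      rw [FI_of_le ha (by omega), mul_zero]
      simp
    have h1 := key t hne
    have h2 := key t' hne'
    have h3 : ((t : ℤ) + c).toNat = ((t' : ℤ) + c).toNat := h
    omega
  · intro u hu hne
    rw [mem_Icc] at hu
    have h1 : (u : ℤ) + -c ≤ Y := by
      by_contra hcon
      apply hne
      rw [fz_dl_gt z b Y H _ (by omega), mul_zero]
    have h2 : (1 : ℤ) ≤ (u : ℤ) + -c := by
      by_contra hcon
      apply hne
      rw [fz_dl z b Y H hb hYH _ h1, FI_of_le hb (by omega), GI_of_le hb (by omega)]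
      simp
    refine ⟨((u : ℤ) + -c).toNat, mem_Icc.2 ⟨by omega, by omega⟩, ?_, ?_⟩
    · have h3 : (((((u : ℤ) + -c).toNat : ℕ)) : ℤ) = (u : ℤ) + -c := Int.toNat_of_nonneg (by omega)
      rw [fz_dl z b Y H hb hYH _ h1] at hne
      rw [h3]
      have h4 : (u : ℤ) + -c + c = u := by ring
      rw [h4]
      intro hcon
      apply hne
      rw [← Complex.ofReal_mul, mul_comm]
      exact hcon
    · have h3 : (((((u : ℤ) + -c).toNat : ℕ)) : ℤ) = (u : ℤ) + -c := Int.toNat_of_nonneg (by omega)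
      show (((((u : ℤ) + -c).toNat : ℕ) : ℤ) + c).toNat = u
      rw [h3]
      omega
  · intro t ht hne
    have h1 : (1 : ℤ) ≤ t + c := by
      by_contra hcon
      apply hne
      rw [FI_of_le ha (by omega), mul_zero]
      simp
    rw [mem_Icc] at ht
    have h3 : (((((t : ℤ) + c).toNat : ℕ)) : ℤ) = (t : ℤ) + c := Int.toNat_of_nonneg (by omega)
    rw [h3]
    have h4 : (t : ℤ) + c + -c = t := by ring
    rw [h4, fz_dl z b Y H hb hYH _ (by exact_mod_cast ht.2)]
    push_cast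
    ring

theorem one (p B C K U : ℕ) : ∃ B0 : ℕ, ∀ E : ℕ, ∃ N0 : ℕ, ∀ N : ℕ, N0 ≤ N → ∀ z : ℕ,
    Real.log N ^ B0 ≤ z → (z : ℝ) ≤ Real.log N ^ E → ∀ (x : ℕ) (s : ℕ → ℤ),
    (∀ m ∈ Icc 1 x, |s m| ≤ B * N) →
    (energy p x s : ℝ) * N ≤ Real.log N ^ C * (x : ℝ) ^ (2 * p) →
    ∀ a b : ℕ, 1 ≤ a → 1 ≤ b → ∀ Y : ℕ, Y ≤ K * N →
    ∑ m ∈ Icc 1 x, |Rr z a b (s m) Y| ≤ N * x / Real.log N ^ U := by
  obtain ⟨U', n1, h1⟩ := gen_e p (B + K) C (U + 2)
  obtain ⟨B0, hB0⟩ := sup_all U' (2 * ((B + K) + 1))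
  refine ⟨B0, fun E => ?_⟩
  obtain ⟨n2, h2⟩ := hB0 E
  obtain ⟨n3, h3⟩ := Vz_inv_small E
  obtain ⟨n4, h4⟩ := ev_L' (Real.log (2 * (B + K + 1)) + 4)
  refine ⟨n1 + n2 + n3 + n4 + 3, fun N hN z hz1 hz2 x s hs hE a b ha hb Y hY => ?_⟩
  have hLb := h4 N (by omega)
  have hNr : (3 : ℝ) ≤ N := by exact_mod_cast (by omega : 3 ≤ N)
  have hN0 : (0 : ℝ) < N := by linarith
  have hV := h3 N (by omega)
  have hsup := h2 N (by omega) z hz1 hz2
  obtain ⟨L, hLd⟩ : ∃ L : ℝ, L = Real.log (N : ℝ) := ⟨_, rfl⟩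
  have hgen := h1 N (by omega) x
  rw [← hLd] at hLb hV hz1 hz2 hE hsup hgen ⊢
  have hBK0 : (0 : ℝ) ≤ B + K := by positivity
  have hlK : 0 ≤ Real.log (2 * ((B : ℝ) + K + 1)) := Real.log_nonneg (by linarith)
  have hL4 : 4 ≤ L := by linarith
  have hL1 : 1 ≤ L := by linarith
  have hL0 : 0 < L := by linarith
  have hz : 1 ≤ z := by
    have : (1 : ℝ) ≤ z := (one_le_pow₀ hL1).trans hz1
    exact_mod_cast this
  have hVz := hV z hz hz2
  obtain ⟨H, hH⟩ : ∃ H : ℕ, H = 2 * (((B + K) + 1) * N) := ⟨_, rfl⟩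
  rw [← hH] at hgen
  have hHr : (H : ℝ) = 2 * (B + K + 1) * N := by rw [hH]; push_cast; ring
  have hNH : (N : ℝ) ≤ H := by rw [hHr]; nlinarith
  have hlogH : ∀ n : ℕ, 1 ≤ n → n ≤ H → Real.log n ≤ 2 * L := by
    intro n hn1 hn2
    have e1 : (1 : ℝ) ≤ n := by exact_mod_cast hn1
    have e2 : (n : ℝ) ≤ 2 * (B + K + 1) * N := by rw [← hHr]; exact_mod_cast hn2
    have e3 := Real.log_le_log (by linarith) e2
    rw [Real.log_mul (by positivity) hN0.ne', ← hLd] at e3
    linarith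
  have hlz : ∀ n : ℕ, lamz z n ≤ L := by
    intro n
    unfold lamz
    split_ifs
    · exact hVz
    · exact hL0.le
  have hGI : ∀ (b : ℕ) (k : ℤ), GI z b k ≤ L := by
    intro b k
    unfold GI
    split_ifs
    · unfold lamzI
      split_ifs
      · exact hlz _
      · exact hL0.le
    · exact hL0.le
  have hFI : ∀ b : ℕ, 1 ≤ b → ∀ n : ℕ, n ≤ H → FI b n ≤ 2 * L := by
    intro b hb n hn
    rcases Nat.eq_zero_or_pos n with h0 | h0
    · subst h0
      rw [FI_of_le hb (by simp)]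
      positivity
    by_cases h : b ∣ n
    · obtain ⟨m, rfl⟩ := h
      have hm : 1 ≤ m := by
        rcases Nat.eq_zero_or_pos m with h5 | h5
        · subst h5; omega
        · exact h5
      rw [FI_mul hb hm]
      refine ArithmeticFunction.vonMangoldt_le_log.trans (hlogH m hm ?_)
      exact (Nat.le_mul_of_pos_left m (by omega)).trans hn
    · rw [FI_ndvd h]
      positivity
  have hdlsup : ∀ b : ℕ, 1 ≤ b → ∀ Y : ℕ, ∀ α : ℝ,
      ‖∑ n ∈ Icc 1 H, dl z b Y n * ee ((n : ℝ) * α)‖ ≤ (H : ℕ) / L ^ U' := by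
    intro b hb Y α
    rw [sum_dl z b Y H hb α]
    have e1 : min Y H / b ≤ 2 * ((B + K) + 1) * N := by
      refine (Nat.div_le_self _ _).trans ((min_le_right _ _).trans (le_of_eq ?_))
      rw [hH]
      ring
    refine (hsup (min Y H / b) e1 (b * α)).trans ?_
    exact div_le_div_of_nonneg_right hNH (by positivity)
  have hdlb : ∀ b : ℕ, 1 ≤ b → ∀ Y : ℕ, ∀ n ∈ Icc 1 H, ‖dl z b Y n‖ ≤ 2 * L := by
    intro b hb Y n hn
    rw [mem_Icc] at hn
    by_cases hnY : n ≤ Y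
    · rw [dl_eq z b Y hb hn.1 hnY, Complex.norm_real, Real.norm_eq_abs, abs_le]
      have e1 := FI_nonneg b n
      have e2 := GI_nonneg z b n
      have e3 := hGI b n
      have e4 := hFI b hb n hn.2
      constructor <;> linarith
    · unfold dl
      rw [if_neg (fun hc => hnY hc.1)]
      simp
      positivity
  have hYA : Y ≤ (B + K) * N := hY.trans (Nat.mul_le_mul_right _ (by omega))
  have hYH : Y ≤ H := by
    have : (B + K) * N ≤ H := by
      rw [hH]
      have : (B + K) * N ≤ ((B + K) + 1) * N := Nat.mul_le_mul_right _ (by omega)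
      omega
    omega
  have hAH : (B + K) * N ≤ H := by
    rw [hH]
    have : (B + K) * N ≤ ((B + K) + 1) * N := Nat.mul_le_mul_right _ (by omega)
    omega
  have hs' : ∀ m ∈ Icc 1 x, |s m| ≤ ((B + K : ℕ) : ℤ) * N := by
    intro m hm
    refine (hs m hm).trans ?_
    push_cast
    have : (0 : ℤ) ≤ (K : ℤ) * N := by positivity
    linarith
  -- the second term
  have t2 := hgen s hs' hE (dl z a H) (hdlsup a ha H) (hdlb a ha H) Y hYA
    (fun t => ((GI z b t / L : ℝ) : ℂ)) (by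
      intro t
      rw [Complex.norm_real, Real.norm_eq_abs, abs_of_nonneg (div_nonneg (GI_nonneg _ _ _) hL0.le),
        div_le_one hL0]
      exact hGI b t)
  -- the first term
  have t1 := hgen (fun m => - s m) (by
      intro m hm
      rw [abs_neg]
      exact hs' m hm) (by rw [energy_neg]; exact hE) (dl z b Y) (hdlsup b hb Y) (hdlb b hb Y)
    ((B + K) * N) le_rfl (fun u => if u ≤ (B + K) * N then ((FI a u / (2 * L) : ℝ) : ℂ) else 0) (by
      intro u
      split_ifs with hu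
      · rw [Complex.norm_real, Real.norm_eq_abs, abs_of_nonneg (div_nonneg (FI_nonneg _ _) (by positivity)),
          div_le_one (by positivity)]
        exact hFI a ha u (hu.trans hAH)
      · simp)
  have hpt : ∀ m ∈ Icc 1 x, |Rr z a b (s m) Y| ≤
      2 * L * ‖∑ u ∈ Icc 1 ((B + K) * N), (if u ≤ (B + K) * N then ((FI a u / (2 * L) : ℝ) : ℂ) else 0) *
        fz (dl z b Y) H (u + (fun m => - s m) m)‖ +
      L * ‖∑ t ∈ Icc 1 Y, ((GI z b t / L : ℝ) : ℂ) * fz (dl z a H) H (t + s m)‖ := by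
    intro m hm
    have hsm := abs_le.1 (hs m hm)
    have e1 : (Rr z a b (s m) Y : ℂ) =
        ∑ t ∈ Icc 1 Y, (((FI b t - GI z b t) * FI a (t + s m) : ℝ) : ℂ) +
        ∑ t ∈ Icc 1 Y, ((GI z b t : ℝ) : ℂ) * fz (dl z a H) H (t + s m) := by
      unfold Rr
      push_cast
      rw [← sum_add_distrib]
      apply sum_congr rfl
      intro t ht
      rw [mem_Icc] at ht
      rw [fz_dl z a H H ha le_rfl _ (by
        have e3 : (t : ℤ) ≤ (K : ℤ) * N := by exact_mod_cast ht.2.trans hY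
        rw [hH]
        push_cast
        have e4 : (0 : ℤ) ≤ (B : ℤ) * N := by positivity
        have e5 : (0 : ℤ) ≤ (K : ℤ) * N := by positivity
        have e6 : (0 : ℤ) ≤ (N : ℤ) := by positivity
        nlinarith [hsm.2])]
      push_cast
      ring
    have e2 : ∑ t ∈ Icc 1 Y, (((FI b t - GI z b t) * FI a (t + s m) : ℝ) : ℂ) =
        (2 * L : ℝ) * ∑ u ∈ Icc 1 ((B + K) * N), (if u ≤ (B + K) * N then ((FI a u / (2 * L) : ℝ) : ℂ) else 0) *
        fz (dl z b Y) H (u + (fun m => - s m) m) := by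
      rw [shift_sum z a b ha hb (s m) Y ((B + K) * N) H hYH (by
        have e3 : (Y : ℤ) ≤ (K : ℤ) * N := by exact_mod_cast hY
        push_cast
        linarith [hsm.2]), mul_sum]
      apply sum_congr rfl
      intro u hu
      rw [if_pos (mem_Icc.1 hu).2, ← mul_assoc]
      congr 1
      rw [← Complex.ofReal_mul]
      congr 1
      field_simp
    have e3 : ∑ t ∈ Icc 1 Y, ((GI z b t : ℝ) : ℂ) * fz (dl z a H) H (t + s m) =
        (L : ℝ) * ∑ t ∈ Icc 1 Y, ((GI z b t / L : ℝ) : ℂ) * fz (dl z a H) H (t + s m) := by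
      rw [mul_sum]
      apply sum_congr rfl
      intro t _
      rw [← mul_assoc]
      congr 1
      rw [← Complex.ofReal_mul]
      congr 1
      field_simp
    have e4 : |Rr z a b (s m) Y| = ‖(Rr z a b (s m) Y : ℂ)‖ := by
      rw [Complex.norm_real, Real.norm_eq_abs]
    rw [e4, e1, e2, e3]
    refine (norm_add_le _ _).trans ?_
    rw [norm_mul, norm_mul, Complex.norm_real, Complex.norm_real, Real.norm_of_nonneg (by positivity : 0 ≤ 2 * L),
      Real.norm_of_nonneg hL0.le]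
  refine (sum_le_sum hpt).trans ?_
  rw [sum_add_distrib, ← mul_sum, ← mul_sum]
  calc _ ≤ 2 * L * (N * x / L ^ (U + 2)) + L * (N * x / L ^ (U + 2)) :=
        add_le_add (mul_le_mul_of_nonneg_left t1 (by positivity)) (mul_le_mul_of_nonneg_left t2 hL0.le)
    _ = (3 / L) * (N * x / L ^ U) := by
        rw [pow_add]
        field_simp
        ring
    _ ≤ 1 * (N * x / L ^ U) := by
        apply mul_le_mul_of_nonneg_right _ (by positivity)
        rw [div_le_one hL0]
        linarith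
    _ = _ := one_mul _

end Pool.Agent.W2helper64.EN
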