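import Mathlib
import Pool.Agent.W2helper64.EN.One
import Pool.Agent.N699.ST.Det

set_option autoImplicit false

/-! The two linear forms of the equation `a p - b q = c` and the deterministic part. -/

namespace Pool.Agent.W2helper64.EN

open Finset Filter Pool.Agent.H373R2.T7
open Pool.Agent.Y820.LF

/-- `a, b, c` are pairwise relatively prime and not all odd, `a, b ≥ 1`. -/
def Ok (a b : ℕ) (c : ℤ) : Prop :=
  1 ≤ a ∧ 1 ≤ b ∧ Nat.Coprime a b ∧ IsCoprime (a : ℤ) c ∧ IsCoprime (b : ℤ) c ∧ (2 : ℤ) ∣ a * b * c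

/-- The number of the prime solutions `(p, q)` of `a p - b q = c` with `y < q ≤ y + a N`. -/
noncomputable def sol (a b : ℕ) (c : ℤ) (y N : ℕ) : ℕ :=
  Set.ncard {x : ℕ × ℕ | x.1.Prime ∧ x.2.Prime ∧ (a : ℤ) * x.1 - b * x.2 = c ∧ y < x.2 ∧ x.2 ≤ y + a * N}

open Classical in
/-- The partial products of the singular series. -/
noncomputable def sing (a b : ℕ) (c : ℤ) (z : ℕ) : ℝ :=
  ∏ p ∈ (Icc 1 z).filter Nat.Prime, (1 - (if (p : ℤ) ∣ a * b * c then 1 else 2) / (p : ℝ)) / (1 - 1 / (p : ℝ)) ^ 2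

/-- the two forms -/
def Cf (a b : ℕ) : Fin 2 → ℤ := Fin.cons (b : ℤ) (fun _ => (a : ℤ))

/-- the two constants -/
def Hf (u v : ℕ) : Fin 2 → ℤ := Fin.cons (u : ℤ) (fun _ => (v : ℤ))

lemma nu_eq (a b : ℕ) (c : ℤ) (h : Ok a b c) (u v : ℕ) (hc : (a : ℤ) * u - b * v = c) (p : ℕ) (hp : p.Prime) :
    nuF (Cf a b) (Hf u v) p = if (p : ℤ) ∣ a * b * c then 1 else 2 := by
  classical
  obtain ⟨_, _, hab, hac, hbc, _⟩ := h
  have hpz := Nat.prime_iff_prime_int.1 hp
  have hset : nuF (Cf a b) (Hf u v) p =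
      ((range p).filter (fun r : ℕ => (p : ℤ) ∣ (b : ℤ) * r + u ∨ (p : ℤ) ∣ (a : ℤ) * r + v)).card := by
    unfold nuF
    congr 1
    apply filter_congr
    intro r _
    rw [Fin.exists_fin_two]
    rfl
  rw [hset]
  have hcop : ∀ w : ℤ, IsCoprime w c → (p : ℤ) ∣ w → ¬ (p : ℤ) ∣ c := by
    intro w hw h1 h2
    exact hpz.not_isUnit (hw.isUnit_of_dvd' h1 h2)
  by_cases ha : (p : ℤ) ∣ (a : ℤ)
  · -- the second form has no zero
    have hc' := hcop _ hac ha
    have hb : ¬ (p : ℤ) ∣ (b : ℤ) := by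
      intro hb
      have h1 : p ∣ a := Int.natCast_dvd_natCast.1 ha
      have h2 : p ∣ b := Int.natCast_dvd_natCast.1 hb
      have h3 := Nat.dvd_gcd h1 h2
      rw [Nat.Coprime.gcd_eq_one hab] at h3
      exact hp.one_lt.ne' (Nat.dvd_one.1 h3)
    have hv : ∀ r : ℕ, ¬ (p : ℤ) ∣ (a : ℤ) * r + v := by
      intro r hd
      have h1 : (p : ℤ) ∣ v := (dvd_add_right (Dvd.dvd.mul_right ha _)).1 hd
      apply hc'
      rw [← hc]
      exact dvd_sub (Dvd.dvd.mul_right ha _) (Dvd.dvd.mul_left h1 _)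
    obtain ⟨r1, hr1, hr1'⟩ := SBF.ex_rep (b : ℤ) u p hp hb
    have heq : (range p).filter (fun r : ℕ => (p : ℤ) ∣ (b : ℤ) * r + u ∨ (p : ℤ) ∣ (a : ℤ) * r + v) = {r1} := by
      ext r
      rw [mem_filter, mem_range, mem_singleton]
      constructor
      · rintro ⟨h1, h2 | h2⟩
        · exact SBF.uniq_rep (b : ℤ) u p hp hb _ _ h1 hr1 h2 hr1'
        · exact absurd h2 (hv r)
      · rintro rfl
        exact ⟨hr1, Or.inl hr1'⟩
    rw [heq, card_singleton, if_pos (Dvd.dvd.mul_right (Dvd.dvd.mul_right ha _) _)]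
  · by_cases hb : (p : ℤ) ∣ (b : ℤ)
    · have hc' := hcop _ hbc hb
      have hu : ∀ r : ℕ, ¬ (p : ℤ) ∣ (b : ℤ) * r + u := by
        intro r hd
        have h1 : (p : ℤ) ∣ u := (dvd_add_right (Dvd.dvd.mul_right hb _)).1 hd
        apply hc'
        rw [← hc]
        exact dvd_sub (Dvd.dvd.mul_left h1 _) (Dvd.dvd.mul_right hb _)
      obtain ⟨r1, hr1, hr1'⟩ := SBF.ex_rep (a : ℤ) v p hp ha
      have heq : (range p).filter (fun r : ℕ => (p : ℤ) ∣ (b : ℤ) * r + u ∨ (p : ℤ) ∣ (a : ℤ) * r + v) = {r1} := by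
        ext r
        rw [mem_filter, mem_range, mem_singleton]
        constructor
        · rintro ⟨h1, h2 | h2⟩
          · exact absurd h2 (hu r)
          · exact SBF.uniq_rep (a : ℤ) v p hp ha _ _ h1 hr1 h2 hr1'
        · rintro rfl
          exact ⟨hr1, Or.inr hr1'⟩
      rw [heq, card_singleton, if_pos (Dvd.dvd.mul_right (Dvd.dvd.mul_left hb _) _)]
    · obtain ⟨r1, hr1, hr1'⟩ := SBF.ex_rep (b : ℤ) u p hp hb
      obtain ⟨r2, hr2, hr2'⟩ := SBF.ex_rep (a : ℤ) v p hp ha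
      have heq : (range p).filter (fun r : ℕ => (p : ℤ) ∣ (b : ℤ) * r + u ∨ (p : ℤ) ∣ (a : ℤ) * r + v) = {r1, r2} := by
        ext r
        rw [mem_filter, mem_range, mem_insert, mem_singleton]
        constructor
        · rintro ⟨h1, h2 | h2⟩
          · exact Or.inl (SBF.uniq_rep (b : ℤ) u p hp hb _ _ h1 hr1 h2 hr1')
          · exact Or.inr (SBF.uniq_rep (a : ℤ) v p hp ha _ _ h1 hr2 h2 hr2')
        · rintro (rfl | rfl)
          · exact ⟨hr1, Or.inl hr1'⟩
          · exact ⟨hr2, Or.inr hr2'⟩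
      rw [heq]
      have hrr : r1 = r2 ↔ (p : ℤ) ∣ c := by
        constructor
        · rintro rfl
          have h1 := dvd_sub (Dvd.dvd.mul_left hr1' (a : ℤ)) (Dvd.dvd.mul_left hr2' (b : ℤ))
          have e : (a : ℤ) * (b * r1 + u) - b * (a * r1 + v) = c := by rw [← hc]; ring
          rwa [e] at h1
        · intro hpc
          have h1 : (p : ℤ) ∣ b * (a * r1 + v) := by
            have e : (b : ℤ) * (a * r1 + v) = a * (b * r1 + u) - c := by rw [← hc]; ring
            rw [e]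
            exact dvd_sub (Dvd.dvd.mul_left hr1' _) hpc
          have h2 := (hpz.dvd_or_dvd h1).resolve_left hb
          exact SBF.uniq_rep (a : ℤ) v p hp ha _ _ hr1 hr2 h2 hr2'
      by_cases hpc : (p : ℤ) ∣ c
      · rw [if_pos (Dvd.dvd.mul_left hpc _), hrr.2 hpc]
        simp
      · rw [if_neg, card_pair (fun h => hpc (hrr.1 h))]
        intro hd
        rcases hpz.dvd_or_dvd hd with h1 | h1
        · rcases hpz.dvd_or_dvd h1 with h2 | h2
          · exact ha h2
          · exact hb h2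
        · exact hpc h1

lemma adm (a b : ℕ) (c : ℤ) (h : Ok a b c) (u v : ℕ) (hc : (a : ℤ) * u - b * v = c) :
    AdmF (Cf a b) (Hf u v) := by
  intro p hp
  rw [nu_eq a b c h u v hc p hp]
  have h2 := hp.two_le
  by_cases hd : (p : ℤ) ∣ a * b * c
  · rw [if_pos hd]
    omega
  · rw [if_neg hd]
    rcases Nat.lt_or_ge 2 p with h3 | h3
    · exact h3
    · exfalso
      have : p = 2 := by omega
      subst this
      exact hd (by exact_mod_cast h.2.2.2.2.2)

lemma sing_eq (a b : ℕ) (c : ℤ) (h : Ok a b c) (u v : ℕ) (hc : (a : ℤ) * u - b * v = c) :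
    singF (Cf a b) (Hf u v) = sing a b c := by
  funext z
  unfold singF sing
  apply prod_congr rfl
  intro p hp
  rw [nu_eq a b c h u v hc p (mem_filter.1 hp).2]
  congr 3
  split_ifs <;> norm_num

lemma sol_eq (a b : ℕ) (c : ℤ) (h : Ok a b c) (u v : ℕ) (hc : (a : ℤ) * u - b * v = c) (N : ℕ) :
    sol a b c v N = cntF (Cf a b) (Hf u v) N := by
  classical
  obtain ⟨ha1, hb1, hab, _, _, _⟩ := h
  unfold sol cntF
  have himg : {x : ℕ × ℕ | x.1.Prime ∧ x.2.Prime ∧ (a : ℤ) * x.1 - b * x.2 = c ∧ v < x.2 ∧ x.2 ≤ v + a * N} =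
      (((Icc 1 N).filter (fun n : ℕ => ∀ i, (Cf a b i * (n : ℤ) + Hf u v i).toNat.Prime)).image
        (fun n => (b * n + u, a * n + v)) : Finset (ℕ × ℕ)) := by
    ext x
    rw [Set.mem_ofPred_eq, mem_coe, mem_image]
    constructor
    · rintro ⟨h1, h2, h3, h4, h5⟩
      -- a (x.1 - u) = b (x.2 - v)
      obtain ⟨d, hd⟩ : ∃ d : ℕ, x.2 = v + d := ⟨x.2 - v, by omega⟩
      have h6 : (a : ℤ) * ((x.1 : ℤ) - u) = b * d := by
        have : (x.2 : ℤ) = v + d := by exact_mod_cast hd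
        rw [this] at h3
        linarith
      have h7 : (a : ℤ) ∣ (d : ℤ) := by
        have h8 : IsCoprime (a : ℤ) (b : ℤ) := Nat.isCoprime_iff_coprime.2 hab
        exact h8.dvd_of_dvd_mul_left ⟨_, h6.symm⟩
      obtain ⟨n, hn⟩ := Int.natCast_dvd_natCast.1 h7
      subst hn
      have h8 : (x.1 : ℤ) = b * n + u := by
        have ha0 : (a : ℤ) ≠ 0 := by exact_mod_cast (by omega : a ≠ 0)
        apply mul_left_cancel₀ ha0
        push_cast at h6
        linarith
      have h9 : x.1 = b * n + u := by exact_mod_cast h8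
      have hn1 : 1 ≤ n := by
        by_contra hcon
        have : n = 0 := by omega
        rw [this, mul_zero] at hd
        omega
      have hn2 : n ≤ N := by
        have : a * n ≤ a * N := by omega
        exact Nat.le_of_mul_le_mul_left this ha1
      refine ⟨n, mem_filter.2 ⟨mem_Icc.2 ⟨hn1, hn2⟩, ?_⟩, ?_⟩
      · rw [Fin.forall_fin_two]
        constructor
        · have e : Cf a b 0 * (n : ℤ) + Hf u v 0 = ((b * n + u : ℕ) : ℤ) := by
            unfold Cf Hf
            rw [Fin.cons_zero, Fin.cons_zero]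
            push_cast
            ring
          rw [e, Int.toNat_natCast, ← h9]
          exact h1
        · have e : Cf a b 1 * (n : ℤ) + Hf u v 1 = ((a * n + v : ℕ) : ℤ) := by
            have e1 : Cf a b 1 = a := rfl
            have e2 : Hf u v 1 = v := rfl
            rw [e1, e2]
            push_cast
            ring
          rw [e, Int.toNat_natCast]
          rw [hd, add_comm] at h2
          exact h2
      · ext
        · exact h9.symm
        · simp only
          omega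
    · rintro ⟨n, hn, rfl⟩
      rw [mem_filter, mem_Icc, Fin.forall_fin_two] at hn
      obtain ⟨⟨hn1, hn2⟩, h1, h2⟩ := hn
      have e : Cf a b 0 * (n : ℤ) + Hf u v 0 = ((b * n + u : ℕ) : ℤ) := by
        unfold Cf Hf
        rw [Fin.cons_zero, Fin.cons_zero]
        push_cast
        ring
      have e' : Cf a b 1 * (n : ℤ) + Hf u v 1 = ((a * n + v : ℕ) : ℤ) := by
        have e1 : Cf a b 1 = a := rfl
        have e2 : Hf u v 1 = v := rfl
        rw [e1, e2]
        push_cast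
        ring
      rw [e, Int.toNat_natCast] at h1
      rw [e', Int.toNat_natCast] at h2
      have h3 : a * n ≤ a * N := Nat.mul_le_mul_left _ hn2
      have h4 : 1 ≤ a * n := Nat.mul_pos ha1 hn1
      refine ⟨h1, h2, ?_, ?_, ?_⟩
      · rw [← hc]
        push_cast
        ring
      · simp only
        omega
      · simp only
        omega
  rw [himg, Set.ncard_coe_finset, card_image_of_injective]
  intro n n' hnn
  simp only [Prod.mk.injEq] at hnn
  have h1 : a * n = a * n' := by omega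
  exact Nat.eq_of_mul_eq_mul_left ha1 h1

/-- the window -/
lemma win_sum (z a b u v X : ℕ) (ha : 1 ≤ a) (hb : 1 ≤ b) (hab : Nat.Coprime a b) (c : ℤ)
    (hc : (a : ℤ) * u - b * v = c) :
    ∑ n ∈ Icc 1 X, (∏ i, lamI (Cf a b i * (n : ℤ) + Hf u v i) - ∏ i, lamzI z (Cf a b i * (n : ℤ) + Hf u v i)) =
      Rr z a b c (b * v + a * b * X) - Rr z a b c (b * v) := by
  classical
  set F : ℕ → ℝ := fun t => FI b t * FI a (t + c) - GI z b t * GI z a (t + c) with hF
  have hI : ∀ Y : ℕ, Icc 1 Y = Ioc 0 Y := by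
    intro Y
    ext t
    rw [mem_Icc, mem_Ioc]
    omega
  have h1 : Rr z a b c (b * v + a * b * X) - Rr z a b c (b * v) =
      ∑ t ∈ Ioc (b * v) (b * v + a * b * X), F t := by
    have e := sum_Ioc_consecutive F (Nat.zero_le (b * v)) (Nat.le_add_right (b * v) (a * b * X))
    unfold Rr
    rw [hI, hI]
    have e1 : ∑ t ∈ Ioc 0 (b * v), (FI b t * FI a (t + c) - GI z b t * GI z a (t + c)) =
        ∑ t ∈ Ioc 0 (b * v), F t := rfl
    have e2 : ∑ t ∈ Ioc 0 (b * v + a * b * X), (FI b t * FI a (t + c) - GI z b t * GI z a (t + c)) =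
        ∑ t ∈ Ioc 0 (b * v + a * b * X), F t := rfl
    rw [e1, e2]
    linarith
  rw [h1]
  refine sum_of_injOn (fun n => b * (a * n + v)) ?_ ?_ ?_ ?_
  · intro n _ n' _ h
    have h2 : b * (a * n + v) = b * (a * n' + v) := h
    have h3 := Nat.eq_of_mul_eq_mul_left (by omega : 0 < b) h2
    have h4 : a * n = a * n' := by omega
    exact Nat.eq_of_mul_eq_mul_left (by omega : 0 < a) h4
  · intro n hn
    rw [mem_coe, mem_Icc] at hn
    rw [mem_coe, mem_Ioc]
    have e1 : 1 ≤ b * a * n := Nat.mul_pos (Nat.mul_pos (by omega) (by omega)) (by omega)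
    have e2 : b * a * n ≤ b * a * X := Nat.mul_le_mul_left _ hn.2
    have e3 : b * (a * n + v) = b * a * n + b * v := by ring
    have e4 : a * b * X = b * a * X := by ring
    show b * v < b * (a * n + v) ∧ b * (a * n + v) ≤ b * v + a * b * X
    rw [e3, e4]
    omega
  · intro t ht hnot
    rw [mem_Ioc] at ht
    show FI b t * FI a (t + c) - GI z b t * GI z a (t + c) = 0
    by_cases hbt : b ∣ t
    swap
    · rw [FI_ndvd hbt, GI_ndvd hbt, zero_mul, zero_mul, sub_zero]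
    obtain ⟨q, rfl⟩ := hbt
    by_cases hat : (a : ℤ) ∣ ((b * q : ℕ) : ℤ) + c
    swap
    · unfold FI GI
      rw [if_neg hat, if_neg hat, mul_zero, mul_zero, sub_zero]
    exfalso
    apply hnot
    have hqv : v < q := Nat.lt_of_mul_lt_mul_left ht.1
    obtain ⟨d, hd⟩ : ∃ d : ℕ, q = v + d := ⟨q - v, by omega⟩
    subst hd
    have h5 : (a : ℤ) ∣ (b : ℤ) * d := by
      have e : (b : ℤ) * d = (((b * (v + d) : ℕ) : ℤ) + c) - a * u := by
        rw [← hc]
        push_cast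
        ring
      rw [e]
      exact dvd_sub hat (dvd_mul_right _ _)
    have h6 : a ∣ d := by
      have h7 : a ∣ b * d := by exact_mod_cast h5
      exact hab.dvd_of_dvd_mul_left h7
    obtain ⟨n, rfl⟩ := h6
    have hn1 : 1 ≤ n := by
      rcases Nat.eq_zero_or_pos n with h | h
      · subst h; omega
      · exact h
    have hn2 : n ≤ X := by
      have e1 : b * (v + a * n) = b * v + a * b * n := by ring
      rw [e1] at ht
      have e2 : a * b * n ≤ a * b * X := by omega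
      exact Nat.le_of_mul_le_mul_left e2 (Nat.mul_pos (by omega) (by omega))
    refine ⟨n, mem_coe.2 (mem_Icc.2 ⟨hn1, hn2⟩), ?_⟩
    show b * (a * n + v) = b * (v + a * n)
    rw [add_comm]
  · intro n hn
    rw [mem_Icc] at hn
    rw [Fin.prod_univ_two, Fin.prod_univ_two]
    have e0 : Cf a b 0 * (n : ℤ) + Hf u v 0 = ((b * n + u : ℕ) : ℤ) := by
      unfold Cf Hf
      rw [Fin.cons_zero, Fin.cons_zero]
      push_cast
      ring
    have e1 : Cf a b 1 * (n : ℤ) + Hf u v 1 = ((a * n + v : ℕ) : ℤ) := by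
      have e1 : Cf a b 1 = a := rfl
      have e2 : Hf u v 1 = v := rfl
      rw [e1, e2]
      push_cast
      ring
    have hbn : 1 ≤ b * n + u := by
      have : 1 ≤ b * n := Nat.mul_pos (by omega) (by omega)
      omega
    have han : 1 ≤ a * n + v := by
      have : 1 ≤ a * n := Nat.mul_pos (by omega) (by omega)
      omega
    rw [e0, e1]
    show _ = FI b ((b * (a * n + v) : ℕ) : ℤ) * FI a (((b * (a * n + v) : ℕ) : ℤ) + c) -
      GI z b ((b * (a * n + v) : ℕ) : ℤ) * GI z a (((b * (a * n + v) : ℕ) : ℤ) + c)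
    have e2 : ((b * (a * n + v) : ℕ) : ℤ) + c = ((a * (b * n + u) : ℕ) : ℤ) := by
      rw [← hc]
      push_cast
      ring
    rw [e2, FI_mul hb han, FI_mul ha hbn, GI_mul hb han, GI_mul ha hbn]
    unfold lamI lamzI
    rw [if_pos (by exact_mod_cast hbn), if_pos (by exact_mod_cast han), if_pos (by exact_mod_cast hbn),
      if_pos (by exact_mod_cast han), Int.toNat_natCast, Int.toNat_natCast]
    ring

/-- a lower bound for the singular series -/
noncomputable def cl : ℝ := (1 / (3 * ((2 : ℕ) : ℝ))) ^ (3 * 2) * Real.exp (-(2 * ((2 : ℕ) : ℝ) ^ 2))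

lemma cl_pos : 0 < cl := by
  unfold cl
  positivity

theorem win (W B E1 : ℕ) (hE1 : W + 7 ≤ E1) (ε : ℝ) (hε : 0 < ε) : ∃ n0 : ℕ, ∀ N : ℕ, n0 ≤ N → ∀ z : ℕ,
    Real.log N ^ E1 ≤ z → (z : ℝ) ≤ Real.log N ^ (E1 + 1) → ∀ X : ℕ, (N : ℝ) ≤ X * Real.log N ^ W →
    ∀ (a b u v : ℕ) (c : ℤ), Ok a b c → c ≠ 0 → (a : ℤ) * u - b * v = c → a * X ≤ N → b * X ≤ N →
    u ≤ B * N → v ≤ B * N →
    |∑ n ∈ Icc 1 X, (∏ i, lamI (Cf a b i * (n : ℤ) + Hf u v i) -
      ∏ i, lamzI z (Cf a b i * (n : ℤ) + Hf u v i))| ≤ X / Real.log N ^ 3 →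
    ∃ G : ℝ, cl ≤ G ∧ Tendsto (sing a b c) atTop (nhds G) ∧
      |(cntF (Cf a b) (Hf u v) X : ℝ) - G * (X / Real.log N ^ 2)| ≤ ε * (G * (X / Real.log N ^ 2)) := by
  obtain ⟨n1, h1⟩ := Pool.Agent.N699.ST.det_core 2 W B 1 (by norm_num) ε hε E1 (by omega) le_rfl
  obtain ⟨n2, h2⟩ := t_main0 2 (E1 + 2) 4 (by norm_num)
  obtain ⟨n3, h3⟩ := ev_L' (2 ^ (E1 + 3) + 16)
  obtain ⟨n4, h4⟩ := ev_log' W 1
  refine ⟨n1 + n2 ^ 2 + n3 + n4 + 3, fun N hN z hz1 hz2 X hX a b u v c hok hc0 hc haX hbX hu hv hmain => ?_⟩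
  have hL3 := h3 N (by omega)
  have a4 := h4 N (by omega)
  rw [one_mul] at a4
  have hdet := h1 N (by omega) z hz1 hz2 X hX (Cf a b) (Hf u v)
  have hNr : (3 : ℝ) ≤ N := by exact_mod_cast (by omega : 3 ≤ N)
  have hN0 : (0 : ℝ) < N := by linarith
  obtain ⟨L, hLd⟩ : ∃ L : ℝ, L = Real.log (N : ℝ) := ⟨_, rfl⟩
  rw [← hLd] at hL3 a4 hz1 hz2 hX hmain hdet ⊢
  have hp2 : (1 : ℝ) ≤ 2 ^ (E1 + 3) := one_le_pow₀ (by norm_num)
  have hL16 : 16 ≤ L := by linarith
  have hL1 : 1 ≤ L := by linarith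
  have hL0 : 0 < L := by linarith
  have hz : 1 ≤ z := by
    have : (1 : ℝ) ≤ z := (one_le_pow₀ hL1).trans hz1
    exact_mod_cast this
  obtain ⟨ha1, hb1, hab, hac, hbc, hpar⟩ := hok
  have hs0 : 0 < √(N : ℝ) := Real.sqrt_pos.2 hN0
  have hss : √(N : ℝ) * √(N : ℝ) = N := Real.mul_self_sqrt hN0.le
  have hXs : √(N : ℝ) ≤ X := by
    have h5 : √(N : ℝ) * √(N : ℝ) ≤ X * √(N : ℝ) := by
      rw [hss]
      exact hX.trans (mul_le_mul_of_nonneg_left a4 (Nat.cast_nonneg _))
    exact le_of_mul_le_mul_right h5 hs0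
  have hX0 : (0 : ℝ) < X := lt_of_lt_of_le hs0 hXs
  have hX1 : 1 ≤ X := by exact_mod_cast hX0
  have hXn : n2 ≤ X := by
    have h5 : (n2 : ℝ) ≤ √(N : ℝ) := by
      apply Real.le_sqrt_of_sq_le
      have : n2 ^ 2 ≤ N := by omega
      exact_mod_cast this
    exact_mod_cast h5.trans hXs
  have hlX : L / 2 ≤ Real.log X := by
    have h5 := Real.log_le_log hs0 hXs
    rw [Real.log_sqrt hN0.le, ← hLd] at h5
    exact h5
  have hlX0 : 0 < Real.log X := by linarith
  have hzX : (z : ℝ) ≤ Real.log X ^ (E1 + 2) := by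
    have h5 : L ≤ 2 * Real.log X := by linarith
    calc (z : ℝ) ≤ L ^ (E1 + 1) := hz2
      _ ≤ (2 * Real.log X) ^ (E1 + 1) := pow_le_pow_left₀ hL0.le h5 _
      _ = 2 ^ (E1 + 1) * Real.log X ^ (E1 + 1) := mul_pow _ _ _
      _ ≤ Real.log X * Real.log X ^ (E1 + 1) := by
          apply mul_le_mul_of_nonneg_right _ (by positivity)
          have h6 : (2 : ℝ) ^ (E1 + 3) = 4 * 2 ^ (E1 + 1) := by rw [pow_add, pow_add]; ring
          have h7 : (0 : ℝ) < 2 ^ (E1 + 1) := by positivity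
          linarith
      _ = _ := by ring
  have hA := adm a b c ⟨ha1, hb1, hab, hac, hbc, hpar⟩ u v hc
  have ec0 : Cf a b 0 = b := rfl
  have ec1 : Cf a b 1 = a := rfl
  have eh0 : Hf u v 0 = u := rfl
  have eh1 : Hf u v 1 = v := rfl
  have hP : PosF (Cf a b) (Hf u v) X := by
    have k1 : 1 ≤ b * X := Nat.mul_pos hb1 hX1
    have k2 : 1 ≤ a * X := Nat.mul_pos ha1 hX1
    unfold PosF
    rw [Fin.forall_fin_two, ec0, ec1, eh0, eh1]
    refine ⟨⟨by omega, ?_⟩, ⟨by omega, ?_⟩⟩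
    · exact_mod_cast (by omega : 1 ≤ b * X + u)
    · exact_mod_cast (by omega : 1 ≤ a * X + v)
  have hm0 := h2 X hXn z hz hzX (Cf a b) (Hf u v) hP hA
  have hm0' : |∑ n ∈ Icc 1 X, ∏ i, lamzI z (Cf a b i * (n : ℤ) + Hf u v i) -
      singF (Cf a b) (Hf u v) z * X| ≤ X / L ^ 3 := by
    refine hm0.trans ?_
    have h5 : (L / 2) ^ 4 ≤ Real.log X ^ 4 := pow_le_pow_left₀ (by linarith) hlX _
    calc (X : ℝ) / Real.log X ^ 4 ≤ X / (L / 2) ^ 4 :=
          div_le_div_of_nonneg_left hX0.le (by positivity) h5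
      _ = (16 / L) * (X / L ^ 3) := by
          rw [div_pow]
          field_simp
          ring
      _ ≤ 1 * (X / L ^ 3) := by
          apply mul_le_mul_of_nonneg_right _ (by positivity)
          rw [div_le_one hL0]
          exact hL16
      _ = _ := one_mul _
  obtain ⟨S, hS0, hS1, -, hS3⟩ := hdet (by
      rw [Fin.forall_fin_two, ec0, ec1]
      exact ⟨⟨by exact_mod_cast hb1, by exact_mod_cast hbX⟩, ⟨by exact_mod_cast ha1, by exact_mod_cast haX⟩⟩) (by
      rw [Fin.forall_fin_two, eh0, eh1]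
      exact ⟨⟨by positivity, by exact_mod_cast hu⟩, ⟨by positivity, by exact_mod_cast hv⟩⟩) (by
      have hne : (b : ℤ) * v ≠ a * u := by
        intro h
        apply hc0
        rw [← hc, h, sub_self]
      intro i j hij
      fin_cases i <;> fin_cases j
      · exact absurd rfl hij
      · exact hne
      · exact hne.symm
      · exact absurd rfl hij) hA (by
      have e : ∑ n ∈ Icc 1 X, ∏ i, lamI (Cf a b i * (n : ℤ) + Hf u v i) - singF (Cf a b) (Hf u v) z * X =
          (∑ n ∈ Icc 1 X, (∏ i, lamI (Cf a b i * (n : ℤ) + Hf u v i) -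
            ∏ i, lamzI z (Cf a b i * (n : ℤ) + Hf u v i))) +
          (∑ n ∈ Icc 1 X, ∏ i, lamzI z (Cf a b i * (n : ℤ) + Hf u v i) - singF (Cf a b) (Hf u v) z * X) := by
        rw [sum_sub_distrib]
        ring
      rw [e]
      refine (abs_add_le _ _).trans ((add_le_add hmain hm0').trans ?_)
      have e2 : (X : ℝ) / L ^ 3 + X / L ^ 3 = (2 / L) * (X / L ^ (1 + 1)) := by
        field_simp
        ring
      rw [e2]
      calc (2 / L) * ((X : ℝ) / L ^ (1 + 1)) ≤ 1 * (X / L ^ (1 + 1)) := by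
            apply mul_le_mul_of_nonneg_right _ (by positivity)
            rw [div_le_one hL0]
            linarith
        _ = _ := one_mul _)
  refine ⟨S, ?_, ?_, hS3⟩
  · apply ge_of_tendsto' hS1
    intro z'
    unfold cl
    exact local_low 2 (by norm_num) (nuF (Cf a b) (Hf u v)) z'
      (fun p hp => Pool.Agent.Y820.LF.L.nuF_le (Cf a b) (Hf u v) hA p (mem_pz.1 hp).2) (fun p hp => hA p (mem_pz.1 hp).2)
  · rw [← sing_eq a b c ⟨ha1, hb1, hab, hac, hbc, hpar⟩ u v hc]
    exact hS1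

end Pool.Agent.W2helper64.EN
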