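import Mathlib
import Pool.Agent.W2helper64.EN.Det

set_option autoImplicit false

/-! Families of constants: the conclusion. -/

namespace Pool.Agent.W2helper64.EN

open Finset Filter Pool.Agent.H373R2.T7
open Pool.Agent.Y820.LF

lemma FI_le {b : ℕ} (hb : 1 ≤ b) {k : ℤ} {M : ℕ} (_hM : 1 ≤ M) (hk : k ≤ M) : FI b k ≤ Real.log M := by
  have hlM : 0 ≤ Real.log (M : ℝ) := Real.log_natCast_nonneg M
  rcases le_or_gt k 0 with h0 | h0
  · rw [FI_of_le hb h0]
    exact hlM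
  obtain ⟨n, rfl⟩ := Int.eq_ofNat_of_zero_le h0.le
  by_cases h : b ∣ n
  · obtain ⟨m, rfl⟩ := h
    have hm : 1 ≤ m := by
      rcases Nat.eq_zero_or_pos m with h5 | h5
      · subst h5; simp at h0
      · exact h5
    have h1 : FI b (((b * m : ℕ)) : ℤ) = ArithmeticFunction.vonMangoldt m := FI_mul hb hm
    rw [h1]
    refine ArithmeticFunction.vonMangoldt_le_log.trans ?_
    have hkM : b * m ≤ M := by exact_mod_cast hk
    have hmM : m ≤ M := (Nat.le_mul_of_pos_left m (by omega)).trans hkM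
    exact Real.log_le_log (by exact_mod_cast hm) (by exact_mod_cast hmM)
  · rw [FI_ndvd h]
    exact hlM

lemma GI_le {z b : ℕ} {Λ : ℝ} (hΛ : 0 ≤ Λ) (hV : (Vz z)⁻¹ ≤ Λ) (k : ℤ) : GI z b k ≤ Λ := by
  unfold GI
  split_ifs
  · unfold lamzI
    split_ifs
    · unfold lamz
      split_ifs
      · exact hV
      · exact hΛ
    · exact hΛ
  · exact hΛ

lemma Rr_interp (z a b : ℕ) (c : ℤ) {Y' Y : ℕ} (hYY : Y' ≤ Y) (M : ℝ)
    (hM : ∀ t ∈ Ioc Y' Y, |FI b t * FI a (t + c) - GI z b t * GI z a (t + c)| ≤ M) :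
    |Rr z a b c Y - Rr z a b c Y'| ≤ (Y - Y' : ℕ) * M := by
  have hI : ∀ Y : ℕ, Icc 1 Y = Ioc 0 Y := by
    intro Y
    ext t
    rw [mem_Icc, mem_Ioc]
    omega
  have h1 : Rr z a b c Y - Rr z a b c Y' =
      ∑ t ∈ Ioc Y' Y, (FI b t * FI a (t + c) - GI z b t * GI z a (t + c)) := by
    have e := sum_Ioc_consecutive (fun t : ℕ => FI b t * FI a (t + c) - GI z b t * GI z a (t + c))
      (Nat.zero_le Y') hYY
    unfold Rr
    rw [hI, hI]
    linarith
  rw [h1]
  refine (abs_sum_le_sum_abs _ _).trans ((sum_le_sum hM).trans ?_)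
  rw [sum_const, Nat.card_Ioc, nsmul_eq_mul]

theorem fam (p B C K A V U E0 : ℕ) : ∃ E1 : ℕ, E0 ≤ E1 ∧ ∃ N0 : ℕ, ∀ N : ℕ, N0 ≤ N → ∃ z : ℕ,
    Real.log N ^ E1 ≤ z ∧ (z : ℝ) ≤ Real.log N ^ (E1 + 1) ∧ ∀ (x : ℕ) (s : ℕ → ℤ),
    (∀ m ∈ Icc 1 x, |s m| ≤ B * N) →
    (energy p x s : ℝ) * N ≤ Real.log N ^ C * (x : ℝ) ^ (2 * p) →
    ∃ bad ⊆ Icc 1 x, (bad.card : ℝ) ≤ x / Real.log N ^ U ∧ ∀ m ∈ Icc 1 x, m ∉ bad →
      ∀ a b : ℕ, 1 ≤ a → 1 ≤ b → (a : ℝ) ≤ Real.log N ^ A → (b : ℝ) ≤ Real.log N ^ A →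
      ∀ Y : ℕ, Y ≤ K * N → |Rr z a b (s m) Y| ≤ N / Real.log N ^ V := by
  classical
  obtain ⟨U1, hU1⟩ : ∃ U1 : ℕ, U1 = U + (2 * A + (V + 4)) + (V + 1) := ⟨_, rfl⟩
  obtain ⟨B0, hB0⟩ := one p B C K U1
  obtain ⟨E1, hE1⟩ : ∃ E1 : ℕ, E1 = E0 + B0 := ⟨_, rfl⟩
  obtain ⟨n1, h1⟩ := hB0 (E1 + 1)
  obtain ⟨n2, h2⟩ := Vz_inv_small (E1 + 1)
  obtain ⟨n3, h3⟩ := ev_L' (Real.log (K + B + 1) + K + 16)
  obtain ⟨n4, h4⟩ := ev_log' (V + 3) 4
  refine ⟨E1, by omega, n1 + n2 + n3 + n4 + 3, fun N hN => ?_⟩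
  have hL3 := h3 N (by omega)
  have a4 := h4 N (by omega)
  have hV := h2 N (by omega)
  have hone := h1 N (by omega)
  have hNr : (3 : ℝ) ≤ N := by exact_mod_cast (by omega : 3 ≤ N)
  have hN1 : (1 : ℝ) ≤ N := by linarith
  have hN0 : (0 : ℝ) < N := by linarith
  obtain ⟨L, hLd⟩ : ∃ L : ℝ, L = Real.log (N : ℝ) := ⟨_, rfl⟩
  rw [← hLd] at hL3 a4 hV hone ⊢
  have hK0 : (0 : ℝ) ≤ K := Nat.cast_nonneg _
  have hB0' : (0 : ℝ) ≤ B := Nat.cast_nonneg _
  have hlK : 0 ≤ Real.log ((K : ℝ) + B + 1) := Real.log_nonneg (by linarith)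
  have hL16 : 16 ≤ L := by linarith
  have hL1 : 1 ≤ L := by linarith
  have hL0 : 0 < L := by linarith
  obtain ⟨z, hz⟩ : ∃ z : ℕ, z = ⌈L ^ E1⌉₊ := ⟨_, rfl⟩
  have hz1 : L ^ E1 ≤ z := by rw [hz]; exact Nat.le_ceil _
  have hz2 : (z : ℝ) ≤ L ^ (E1 + 1) := by
    have e1 := (Nat.ceil_lt_add_one (show 0 ≤ L ^ E1 by positivity)).le
    rw [← hz] at e1
    have e2 : 1 ≤ L ^ E1 := one_le_pow₀ hL1
    rw [pow_succ]
    nlinarith
  refine ⟨z, hz1, hz2, fun x s hs hE => ?_⟩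
  have hzn : 1 ≤ z := by
    have : (1 : ℝ) ≤ z := (one_le_pow₀ hL1).trans hz1
    exact_mod_cast this
  have hVz := hV z hzn hz2
  have hz0 : L ^ B0 ≤ z := (pow_le_pow_right₀ hL1 (by omega)).trans hz1
  have hO := hone z hz0 hz2 x s hs hE
  obtain ⟨w, hw⟩ : ∃ w : ℕ, w = ⌊(N : ℝ) / L ^ (V + 3)⌋₊ + 1 := ⟨_, rfl⟩
  have hw1 : 1 ≤ w := by omega
  have hwr : (N : ℝ) / L ^ (V + 3) ≤ w := by
    rw [hw]
    push_cast
    exact (Nat.lt_floor_add_one _).le
  have hwr2 : (w : ℝ) ≤ N / L ^ (V + 3) + 1 := by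
    rw [hw]
    push_cast
    have := Nat.floor_le (show 0 ≤ (N : ℝ) / L ^ (V + 3) by positivity)
    linarith
  obtain ⟨J, hJ⟩ : ∃ J : ℕ, J = K * N / w := ⟨_, rfl⟩
  have hJr : (J : ℝ) + 1 ≤ L ^ (V + 4) := by
    have e1 : J * w ≤ K * N := by rw [hJ]; exact Nat.div_mul_le_self _ _
    have e2 : (J : ℝ) * w ≤ K * N := by exact_mod_cast e1
    have e3 : (J : ℝ) * (N / L ^ (V + 3)) ≤ K * N :=
      (mul_le_mul_of_nonneg_left hwr (Nat.cast_nonneg _)).trans e2
    have e4 : (J : ℝ) ≤ K * L ^ (V + 3) := by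
      have e5 : (J : ℝ) * (N / L ^ (V + 3)) = (J / L ^ (V + 3)) * N := by ring
      rw [e5] at e3
      have e6 := le_of_mul_le_mul_right e3 hN0
      rwa [div_le_iff₀ (by positivity)] at e6
    have e7 : 1 ≤ L ^ (V + 3) := one_le_pow₀ hL1
    calc (J : ℝ) + 1 ≤ K * L ^ (V + 3) + 1 * L ^ (V + 3) := by linarith
      _ = (K + 1) * L ^ (V + 3) := by ring
      _ ≤ L * L ^ (V + 3) := mul_le_mul_of_nonneg_right (by linarith) (by positivity)
      _ = _ := by ring
  obtain ⟨P, hP⟩ : ∃ P : ℕ, P = ⌊L ^ A⌋₊ := ⟨_, rfl⟩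
  have hPr : (P : ℝ) ≤ L ^ A := by
    rw [hP]
    exact Nat.floor_le (by positivity)
  set I : Finset ((ℕ × ℕ) × ℕ) := (Icc 1 P ×ˢ Icc 1 P) ×ˢ range (J + 1) with hI
  have hIc : (I.card : ℝ) ≤ L ^ (2 * A + (V + 4)) := by
    rw [hI, card_product, card_product, Nat.card_Icc, card_range]
    rw [Nat.add_sub_cancel]
    push_cast
    calc (P : ℝ) * P * (J + 1) ≤ (L ^ A * L ^ A) * L ^ (V + 4) := by
          apply mul_le_mul _ hJr (by positivity) (by positivity)
          exact mul_le_mul hPr hPr (by positivity) (by positivity)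
      _ = _ := by
          rw [← pow_add, ← pow_add]
          congr 1
          ring
  set T : ℕ → ℝ := fun m => ∑ i ∈ I, |Rr z i.1.1 i.1.2 (s m) (i.2 * w)| with hT
  have hT0 : ∀ m, 0 ≤ T m := fun m => sum_nonneg fun i _ => abs_nonneg _
  have hTs : ∑ m ∈ Icc 1 x, T m ≤ L ^ (2 * A + (V + 4)) * (N * x / L ^ U1) := by
    rw [hT, sum_comm]
    have e1 : ∀ i ∈ I, ∑ m ∈ Icc 1 x, |Rr z i.1.1 i.1.2 (s m) (i.2 * w)| ≤ N * x / L ^ U1 := by
      intro i hi
      rw [hI, mem_product, mem_product, mem_Icc, mem_Icc, mem_range] at hi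
      apply hO i.1.1 i.1.2 hi.1.1.1 hi.1.2.1
      have e2 : i.2 ≤ J := by omega
      calc i.2 * w ≤ J * w := Nat.mul_le_mul_right _ e2
        _ ≤ K * N := by rw [hJ]; exact Nat.div_mul_le_self _ _
    refine (sum_le_sum e1).trans ?_
    rw [sum_const, nsmul_eq_mul]
    exact mul_le_mul_of_nonneg_right hIc (by positivity)
  set bad : Finset ℕ := (Icc 1 x).filter (fun m => (N : ℝ) / L ^ (V + 1) < T m) with hbad
  refine ⟨bad, filter_subset _ _, ?_, ?_⟩
  · have e1 : (bad.card : ℝ) * (N / L ^ (V + 1)) ≤ ∑ m ∈ Icc 1 x, T m := by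
      calc (bad.card : ℝ) * (N / L ^ (V + 1)) = ∑ _m ∈ bad, (N : ℝ) / L ^ (V + 1) := by
            rw [sum_const, nsmul_eq_mul]
        _ ≤ ∑ m ∈ bad, T m := sum_le_sum fun m hm => (mem_filter.1 hm).2.le
        _ ≤ _ := sum_le_sum_of_subset_of_nonneg (filter_subset _ _) fun m _ _ => hT0 m
    have e2 := e1.trans hTs
    have e3 : L ^ (2 * A + (V + 4)) * (N * x / L ^ U1) = (x / L ^ U) * (N / L ^ (V + 1)) := by
      rw [hU1, pow_add L (U + (2 * A + (V + 4))) (V + 1), pow_add L U (2 * A + (V + 4))]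
      have q1 : L ^ (2 * A + (V + 4)) ≠ 0 := by positivity
      have q2 : L ^ U ≠ 0 := by positivity
      have q3 : L ^ (V + 1) ≠ 0 := by positivity
      generalize L ^ (2 * A + (V + 4)) = R1 at q1 ⊢
      generalize L ^ U = R2 at q2 ⊢
      generalize L ^ (V + 1) = R3 at q3 ⊢
      field_simp
    rw [e3] at e2
    exact le_of_mul_le_mul_right e2 (by positivity)
  · intro m hm hmb a b ha hb haA hbA Y hY
    have hTm : T m ≤ N / L ^ (V + 1) := by
      by_contra hcon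
      exact hmb (mem_filter.2 ⟨hm, not_le.1 hcon⟩)
    have haP : a ≤ P := by rw [hP]; exact Nat.le_floor haA
    have hbP : b ≤ P := by rw [hP]; exact Nat.le_floor hbA
    obtain ⟨j, hj⟩ : ∃ j : ℕ, j = Y / w := ⟨_, rfl⟩
    have hjw : j * w ≤ Y := by rw [hj]; exact Nat.div_mul_le_self _ _
    have hjw2 : Y - j * w ≤ w := by
      have := Nat.lt_div_mul_add (a := Y) (show 0 < w by omega)
      rw [← hj] at this
      omega
    have hjJ : j ≤ J := by
      rw [hj, hJ]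
      exact Nat.div_le_div_right hY
    have hmem : ((a, b), j) ∈ I := by
      rw [hI, mem_product, mem_product, mem_Icc, mem_Icc, mem_range]
      exact ⟨⟨⟨ha, haP⟩, ⟨hb, hbP⟩⟩, by
        show j < J + 1
        omega⟩
    have e1 : |Rr z a b (s m) (j * w)| ≤ N / L ^ (V + 1) := by
      refine le_trans ?_ hTm
      exact single_le_sum (f := fun i : (ℕ × ℕ) × ℕ => |Rr z i.1.1 i.1.2 (s m) (i.2 * w)|)
        (fun i _ => abs_nonneg _) hmem
    have hsm := abs_le.1 (hs m hm)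
    obtain ⟨M, hM⟩ : ∃ M : ℕ, M = (K + B + 1) * N := ⟨_, rfl⟩
    have hM1 : 1 ≤ M := by rw [hM]; exact Nat.mul_pos (by omega) (by omega)
    have hlM : Real.log M ≤ 2 * L := by
      rw [hM]
      push_cast
      rw [Real.log_mul (by positivity) hN0.ne', ← hLd]
      linarith
    have e2 := Rr_interp z a b (s m) hjw (4 * L ^ 2) (by
      intro t ht
      rw [mem_Ioc] at ht
      have f1 : ((t : ℕ) : ℤ) ≤ M := by
        have : t ≤ K * N := ht.2.trans hY
        have : K * N ≤ M := by rw [hM]; exact Nat.mul_le_mul_right _ (by omega)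
        exact_mod_cast (by omega : t ≤ M)
      have f2 : (t : ℤ) + s m ≤ M := by
        have g1 : (t : ℤ) ≤ (K : ℤ) * N := by exact_mod_cast ht.2.trans hY
        rw [hM]
        push_cast
        have g2 : (0 : ℤ) ≤ (N : ℤ) := by positivity
        linarith [hsm.2]
      have b1 := (FI_le hb hM1 f1).trans hlM
      have b2 := (FI_le ha hM1 f2).trans hlM
      have b3 := GI_le (z := z) (b := b) hL0.le hVz (t : ℤ)
      have b4 := GI_le (z := z) (b := a) hL0.le hVz ((t : ℤ) + s m)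
      have c1 := FI_nonneg b t
      have c2 := FI_nonneg a ((t : ℤ) + s m)
      have c3 := GI_nonneg z b t
      have c4 := GI_nonneg z a ((t : ℤ) + s m)
      have d1 : FI b t * FI a ((t : ℤ) + s m) ≤ (2 * L) * (2 * L) := mul_le_mul b1 b2 c2 (by positivity)
      have d2 : GI z b t * GI z a ((t : ℤ) + s m) ≤ L * L := mul_le_mul b3 b4 c4 hL0.le
      have d3 : 0 ≤ FI b t * FI a ((t : ℤ) + s m) := mul_nonneg c1 c2
      have d4 : 0 ≤ GI z b t * GI z a ((t : ℤ) + s m) := mul_nonneg c3 c4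
      rw [abs_le]
      constructor <;> nlinarith)
    have e3 : ((Y - j * w : ℕ) : ℝ) * (4 * L ^ 2) ≤ 5 * (N / L ^ (V + 1)) := by
      have f1 : ((Y - j * w : ℕ) : ℝ) ≤ N / L ^ (V + 3) + 1 := by
        have : ((Y - j * w : ℕ) : ℝ) ≤ w := by exact_mod_cast hjw2
        exact this.trans hwr2
      have f2 : 4 * L ^ 2 ≤ N / L ^ (V + 1) := by
        rw [le_div_iff₀ (by positivity)]
        have g1 : √(N : ℝ) ≤ N := by
          rw [Real.sqrt_le_left (by linarith)]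
          nlinarith
        calc 4 * L ^ 2 * L ^ (V + 1) = 4 * L ^ (V + 3) := by ring
          _ ≤ √(N : ℝ) := a4
          _ ≤ N := g1
      calc ((Y - j * w : ℕ) : ℝ) * (4 * L ^ 2) ≤ (N / L ^ (V + 3) + 1) * (4 * L ^ 2) :=
            mul_le_mul_of_nonneg_right f1 (by positivity)
        _ = 4 * (N / L ^ (V + 1)) + 4 * L ^ 2 := by
            have : L ^ (V + 3) = L ^ (V + 1) * L ^ 2 := by rw [← pow_add]
            rw [this]
            field_simp
        _ ≤ _ := by linarith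
    have e4 : Rr z a b (s m) Y = Rr z a b (s m) (j * w) + (Rr z a b (s m) Y - Rr z a b (s m) (j * w)) := by ring
    rw [e4]
    refine (abs_add_le _ _).trans ((add_le_add e1 (e2.trans e3)).trans ?_)
    calc (N : ℝ) / L ^ (V + 1) + 5 * (N / L ^ (V + 1)) = (6 / L) * (N / L ^ V) := by
          rw [pow_succ]
          field_simp
          ring
      _ ≤ 1 * (N / L ^ V) := by
          apply mul_le_mul_of_nonneg_right _ (by positivity)
          rw [div_le_one hL0]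
          linarith
      _ = _ := one_mul _

/-- the first solution from `y` on -/
lemma first_sol (a b : ℕ) (c : ℤ) (ha : 1 ≤ a) (hab : Nat.Coprime a b) (y : ℕ)
    (hy : 0 ≤ (b : ℤ) * y + c) : ∃ u v : ℕ, y ≤ v ∧ v < y + a ∧ (a : ℤ) * u - b * v = c := by
  have ha0 : (0 : ℤ) < (a : ℤ) := by exact_mod_cast ha
  obtain ⟨s, t, hst⟩ : IsCoprime (b : ℤ) (a : ℤ) := Nat.isCoprime_iff_coprime.2 hab.symm
  obtain ⟨d, hd⟩ : ∃ d : ℕ, (d : ℤ) = (-(c * s) - y) % (a : ℤ) :=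
    ⟨_, Int.toNat_of_nonneg (Int.emod_nonneg _ ha0.ne')⟩
  have hd2 : (d : ℤ) < a := by rw [hd]; exact Int.emod_lt_of_pos _ ha0
  have h3 := Int.emod_add_mul_ediv (-(c * s) - y) (a : ℤ)
  rw [← hd] at h3
  have hdv : (a : ℤ) ∣ (b : ℤ) * ((y + d : ℕ) : ℤ) + c := by
    refine ⟨c * t - b * ((-(c * s) - y) / (a : ℤ)), ?_⟩
    have h5 : (d : ℤ) = -(c * s) - y - (a : ℤ) * ((-(c * s) - y) / (a : ℤ)) := by linarith
    push_cast
    rw [h5]
    linear_combination (-c) * hst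
  obtain ⟨u', hu'⟩ := hdv
  have hu0 : 0 ≤ u' := by
    have h6 : 0 ≤ (a : ℤ) * u' := by
      rw [← hu']
      push_cast
      have : 0 ≤ (b : ℤ) * d := by positivity
      linarith
    by_contra hcon
    have : (a : ℤ) * u' < 0 := mul_neg_of_pos_of_neg ha0 (not_le.1 hcon)
    linarith
  obtain ⟨u, rfl⟩ := Int.eq_ofNat_of_zero_le hu0
  refine ⟨u, y + d, by omega, by omega, ?_⟩
  have : (a : ℤ) * ((u : ℕ) : ℤ) = b * ((y + d : ℕ) : ℤ) + c := hu'.symm
  linarith

lemma sol_finite (a b : ℕ) (c : ℤ) (ha : 1 ≤ a) (y X : ℕ) :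
    {x : ℕ × ℕ | x.1.Prime ∧ x.2.Prime ∧ (a : ℤ) * x.1 - b * x.2 = c ∧ y < x.2 ∧ x.2 ≤ y + a * X}.Finite := by
  apply ((range (b * (y + a * X) + c.natAbs + 1)) ×ˢ (range (y + a * X + 1))).finite_toSet.subset
  rintro ⟨p, q⟩ ⟨_, _, h3, h4, h5⟩
  simp only at h3 h4 h5
  rw [mem_coe, mem_product, mem_range, mem_range]
  refine ⟨?_, by show q < _; omega⟩
  show p < _
  have h6 : (p : ℤ) ≤ a * p := by
    have : p ≤ a * p := Nat.le_mul_of_pos_left p ha
    exact_mod_cast this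
  have h7 : ((b * q : ℕ) : ℤ) ≤ ((b * (y + a * X) : ℕ) : ℤ) := by
    exact_mod_cast Nat.mul_le_mul_left b h5
  push_cast at h7
  have h8 : c ≤ c.natAbs := by omega
  have h9 : (p : ℤ) ≤ b * (y + a * X) + c.natAbs := by linarith
  have h10 : p ≤ b * (y + a * X) + c.natAbs := by exact_mod_cast h9
  omega

lemma sol_near (a b : ℕ) (c : ℤ) (ha : 1 ≤ a) (hab : Nat.Coprime a b) (u v y X : ℕ)
    (hc : (a : ℤ) * u - b * v = c) (h1 : y ≤ v) (h2 : v < y + a) :
    |(sol a b c y X : ℝ) - sol a b c v X| ≤ 1 := by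
  have ha0 : (a : ℤ) ≠ 0 := by exact_mod_cast (by omega : a ≠ 0)
  have key : ∀ p q : ℕ, (a : ℤ) * p - b * q = c → (a : ℤ) ∣ (q : ℤ) - v := by
    intro p q h
    have h3 : IsCoprime (a : ℤ) (b : ℤ) := Nat.isCoprime_iff_coprime.2 hab
    apply h3.dvd_of_dvd_mul_left
    refine ⟨(p : ℤ) - u, ?_⟩
    linarith
  have e1 : sol a b c y X ≤ sol a b c v X + 1 := by
    unfold sol
    refine le_trans (Set.ncard_le_ncard (t := insert (u, v) {x : ℕ × ℕ | x.1.Prime ∧ x.2.Prime ∧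
      (a : ℤ) * x.1 - b * x.2 = c ∧ v < x.2 ∧ x.2 ≤ v + a * X}) ?_ ?_) (Set.ncard_insert_le _ _)
    · rintro ⟨p, q⟩ ⟨g1, g2, g3, g4, g5⟩
      simp only at g1 g2 g3 g4 g5
      by_cases hq : v < q
      · right
        exact ⟨g1, g2, g3, hq, by show q ≤ _; omega⟩
      · left
        have h5 := key p q g3
        have h6 : (q : ℤ) - v = 0 := by
          apply Int.eq_zero_of_abs_lt_dvd h5
          rw [abs_lt]
          constructor <;> omega
        have h7 : q = v := by omega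
        subst h7
        have h8 : (a : ℤ) * p = a * u := by linarith
        have h9 : p = u := by exact_mod_cast mul_left_cancel₀ ha0 h8
        rw [h9]
    · exact (sol_finite a b c ha v X).insert _
  have e2 : sol a b c v X ≤ sol a b c y X + 1 := by
    unfold sol
    refine le_trans (Set.ncard_le_ncard (t := insert (u + b * X, v + a * X) {x : ℕ × ℕ | x.1.Prime ∧ x.2.Prime ∧
      (a : ℤ) * x.1 - b * x.2 = c ∧ y < x.2 ∧ x.2 ≤ y + a * X}) ?_ ?_) (Set.ncard_insert_le _ _)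
    · rintro ⟨p, q⟩ ⟨g1, g2, g3, g4, g5⟩
      simp only at g1 g2 g3 g4 g5
      by_cases hq : q ≤ y + a * X
      · right
        exact ⟨g1, g2, g3, by show y < q; omega, hq⟩
      · left
        have h5 := key p q g3
        have h5' : (a : ℤ) ∣ (q : ℤ) - v - a * X := dvd_sub h5 (dvd_mul_right _ _)
        have h6 : (q : ℤ) - v - a * X = 0 := by
          apply Int.eq_zero_of_abs_lt_dvd h5'
          have h10 : ((q : ℕ) : ℤ) ≤ v + a * X := by exact_mod_cast g5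
          have h11 : (y : ℤ) + a * X < q := by exact_mod_cast not_le.1 hq
          have h12 : (v : ℤ) < y + a := by exact_mod_cast h2
          rw [abs_lt]
          constructor <;> linarith
        have h7 : q = v + a * X := by
          have : (q : ℤ) = v + a * X := by linarith
          exact_mod_cast this
        subst h7
        have h8 : (a : ℤ) * p = a * (u + b * X) := by
          push_cast at g3
          linarith
        have h9 : p = u + b * X := by exact_mod_cast mul_left_cancel₀ ha0 h8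
        rw [h9]
    · exact (sol_finite a b c ha y X).insert _
  rw [abs_le]
  have e1' : (sol a b c y X : ℝ) ≤ sol a b c v X + 1 := by exact_mod_cast e1
  have e2' : (sol a b c v X : ℝ) ≤ sol a b c y X + 1 := by exact_mod_cast e2
  constructor <;> linarith

/-- the singular series converges -/
lemma sing_conv (a b : ℕ) (c : ℤ) (hok : Ok a b c) (hc0 : c ≠ 0) :
    ∃ G : ℝ, 0 < G ∧ Tendsto (sing a b c) atTop (nhds G) := by
  obtain ⟨u, v, -, -, hc⟩ := first_sol a b c hok.1 hok.2.2.1 c.natAbs (by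
    have h1 : (1 : ℤ) ≤ b := by exact_mod_cast hok.2.1
    have h2 : (0 : ℤ) ≤ ((c.natAbs : ℕ) : ℤ) := by positivity
    have h3 : -((c.natAbs : ℕ) : ℤ) ≤ c := by omega
    nlinarith)
  have hA := adm a b c hok u v hc
  have ha1 := hok.1
  have hb1 := hok.2.1
  have hCz : ∀ i, Cf a b i ≠ 0 ∧ |Cf a b i| ≤ ((a + b : ℕ) : ℤ) := by
    rw [Fin.forall_fin_two]
    have ec0 : Cf a b 0 = b := rfl
    have ec1 : Cf a b 1 = a := rfl
    rw [ec0, ec1, abs_of_nonneg (by positivity), abs_of_nonneg (by positivity)]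
    push_cast
    refine ⟨⟨by exact_mod_cast (by omega : b ≠ 0), by omega⟩, ⟨by exact_mod_cast (by omega : a ≠ 0), by omega⟩⟩
  obtain ⟨S, hS, -⟩ := Pool.Agent.Y820.LF.L.sing_limit (by norm_num) (Cf a b) (Hf u v) (a + b) hCz (by
      have hne : (b : ℤ) * v ≠ a * u := by
        intro h
        apply hc0
        rw [← hc, h, sub_self]
      intro i j hij
      fin_cases i <;> fin_cases j
      · exact absurd rfl hij
      · exact hne
      · exact hne.symm
      · exact absurd rfl hij) hA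
  refine ⟨S, ?_, ?_⟩
  · apply lt_of_lt_of_le cl_pos
    apply ge_of_tendsto' hS
    intro z'
    unfold cl
    exact local_low 2 (by norm_num) (nuF (Cf a b) (Hf u v)) z'
      (fun p hp => Pool.Agent.Y820.LF.L.nuF_le (Cf a b) (Hf u v) hA p (mem_pz.1 hp).2)
      (fun p hp => hA p (mem_pz.1 hp).2)
  · rw [← sing_eq a b c hok u v hc]
    exact hS

/-- all coefficients up to a power of the logarithm and all windows -/
def Formula (ε : ℝ) (A B W N : ℕ) (c : ℤ) : Prop :=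
  ∀ a b : ℕ, (a : ℝ) ≤ Real.log N ^ A → (b : ℝ) ≤ Real.log N ^ A → Ok a b c →
    ∃ G : ℝ, 0 < G ∧ Tendsto (sing a b c) atTop (nhds G) ∧ ∀ y X : ℕ, b * y ≤ B * N → 0 ≤ (b : ℤ) * y + c →
      a * b * X ≤ N → (N : ℝ) ≤ X * Real.log N ^ W →
      |(sol a b c y X : ℝ) - G * (X / Real.log N ^ 2)| ≤ ε * (G * (X / Real.log N ^ 2))

open Classical in
theorem main (p A B C U W : ℕ) (ε : ℝ) (hε : 0 < ε) : ∃ N0 : ℕ, ∀ N : ℕ, N0 ≤ N → ∀ (x : ℕ) (s : ℕ → ℤ),
    (∀ m ∈ Icc 1 x, |s m| ≤ B * N) →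
    (energy p x s : ℝ) * N ≤ Real.log N ^ C * (x : ℝ) ^ (2 * p) →
    (((Icc 1 x).filter (fun m => s m ≠ 0 ∧ ¬ Formula ε A B W N (s m))).card : ℝ) ≤ x / Real.log N ^ U := by
  obtain ⟨E1, hE1, n1, h1⟩ := fam p B C (B + 2) A (W + 4) U (W + 7)
  obtain ⟨n2, h2⟩ := win W (2 * B + 2) E1 hE1 (ε / 2) (by positivity)
  obtain ⟨n3, h3⟩ := ev_L' (2 / (ε * cl) + 16)
  obtain ⟨n4, h4⟩ := ev_log' (W + 3) 1
  refine ⟨n1 + n2 + n3 + n4 + 3, fun N hN x s hs hE => ?_⟩
  obtain ⟨z, hz1, hz2, hz⟩ := h1 N (by omega)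
  have hwin := h2 N (by omega) z hz1 hz2
  have hL3 := h3 N (by omega)
  have a4 := h4 N (by omega)
  obtain ⟨bad, hbad, hbc, hgood⟩ := hz x s hs hE
  rw [one_mul] at a4
  refine le_trans ?_ hbc
  rw [Nat.cast_le]
  apply card_le_card
  intro m hm
  rw [mem_filter] at hm
  obtain ⟨hmx, hm0, hmF⟩ := hm
  by_contra hmb
  apply hmF
  have hg := hgood m hmx hmb
  have hsm := abs_le.1 (hs m hmx)
  have hNr : (3 : ℝ) ≤ N := by exact_mod_cast (by omega : 3 ≤ N)
  have hN1 : (1 : ℝ) ≤ N := by linarith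
  have hN0 : (0 : ℝ) < N := by linarith
  intro a b haA hbA hok
  obtain ⟨G, hG0, hG1⟩ := sing_conv a b (s m) hok hm0
  refine ⟨G, hG0, hG1, fun y X hy hyc hX hXW => ?_⟩
  have hok' := hok
  obtain ⟨ha1, hb1, hab, -⟩ := hok'
  obtain ⟨u, v, hyv, hvy, hc⟩ := first_sol a b (s m) ha1 hab y hyc
  have hX1 : 1 ≤ X := by
    rcases Nat.eq_zero_or_pos X with h | h
    · exfalso
      rw [h] at hXW
      simp at hXW
      omega
    · exact h
  have habN : a * b ≤ N := by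
    have : a * b * 1 ≤ a * b * X := Nat.mul_le_mul_left _ hX1
    omega
  have haN : a ≤ N := (Nat.le_mul_of_pos_right a hb1).trans habN
  have hvN : v ≤ (2 * B + 2) * N := by
    have e1 : y ≤ b * y := Nat.le_mul_of_pos_left y hb1
    have e2 : (2 * B + 2) * N = B * N + N + (B + 1) * N := by ring
    have e3 : 0 ≤ (B + 1) * N := Nat.zero_le _
    omega
  have hbv : b * v ≤ B * N + N := by
    have e1 : b * v ≤ b * (y + a) := Nat.mul_le_mul_left _ hvy.le
    have e2 : b * (y + a) = b * y + a * b := by ring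
    omega
  have huN : u ≤ (2 * B + 2) * N := by
    have e1 : (a : ℤ) * u = b * v + s m := by linarith
    have e2 : ((b * v : ℕ) : ℤ) ≤ ((B * N + N : ℕ) : ℤ) := by exact_mod_cast hbv
    push_cast at e2
    have e3 : (u : ℤ) ≤ a * u := by
      have : u ≤ a * u := Nat.le_mul_of_pos_left u ha1
      exact_mod_cast this
    have e4 : (u : ℤ) ≤ (((2 * B + 2) * N : ℕ) : ℤ) := by
      push_cast
      have : (0 : ℤ) ≤ (N : ℤ) := by positivity
      linarith [hsm.2]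
    exact_mod_cast e4
  have haX : a * X ≤ N := by
    have : a * X ≤ a * b * X := Nat.mul_le_mul_right _ (Nat.le_mul_of_pos_right a hb1)
    omega
  have hbX : b * X ≤ N := by
    have : b * X ≤ a * b * X := Nat.mul_le_mul_right _ (Nat.le_mul_of_pos_left b ha1)
    omega
  obtain ⟨L, hLd⟩ : ∃ L : ℝ, L = Real.log (N : ℝ) := ⟨_, rfl⟩
  have hwin' := hwin X hXW a b u v (s m) hok hm0 hc haX hbX huN hvN
  rw [← hLd] at hL3 a4 hg hXW hwin' haA hbA ⊢
  have hcl := cl_pos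
  have hec : 0 < 2 / (ε * cl) := by positivity
  have hL16 : 16 ≤ L := by linarith
  have hL1 : 1 ≤ L := by linarith
  have hL0 : 0 < L := by linarith
  obtain ⟨G', hG'1, hG'2, hG'3⟩ := hwin' (by
    rw [win_sum z a b u v X ha1 hb1 hab (s m) hc]
    have r1 := hg a b ha1 hb1 haA hbA (b * v) (by
      have : (B + 2) * N = B * N + N + N := by ring
      omega)
    have r2 := hg a b ha1 hb1 haA hbA (b * v + a * b * X) (by
      have : (B + 2) * N = B * N + N + N := by ring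
      omega)
    refine (abs_sub _ _).trans ((add_le_add r2 r1).trans ?_)
    have e1 : (N : ℝ) / L ^ (W + 4) ≤ X / L ^ 4 := by
      rw [div_le_div_iff₀ (by positivity) (by positivity)]
      calc (N : ℝ) * L ^ 4 ≤ (X * L ^ W) * L ^ 4 := mul_le_mul_of_nonneg_right hXW (by positivity)
        _ = X * L ^ (W + 4) := by rw [pow_add]; ring
    calc (N : ℝ) / L ^ (W + 4) + N / L ^ (W + 4) ≤ X / L ^ 4 + X / L ^ 4 := add_le_add e1 e1
      _ = (2 / L) * (X / L ^ 3) := by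
          field_simp
          ring
      _ ≤ 1 * (X / L ^ 3) := by
          apply mul_le_mul_of_nonneg_right _ (by positivity)
          rw [div_le_one hL0]
          linarith
      _ = _ := one_mul _)
  have hGG : G' = G := tendsto_nhds_unique hG'2 hG1
  subst hGG
  rw [← sol_eq a b (s m) hok u v hc X] at hG'3
  have hnear := sol_near a b (s m) ha1 hab u v y X hc hyv hvy
  have hXbig : L ^ 3 ≤ X := by
    have e1 : √(N : ℝ) * √(N : ℝ) = N := Real.mul_self_sqrt hN0.le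
    have e2 : L ^ 3 * L ^ W ≤ X * L ^ W := by
      have e3 : √(N : ℝ) ≤ N := by
        rw [Real.sqrt_le_left (by linarith)]
        nlinarith
      calc L ^ 3 * L ^ W = L ^ (W + 3) := by rw [← pow_add, add_comm]
        _ ≤ √(N : ℝ) := a4
        _ ≤ N := e3
        _ ≤ _ := hXW
    exact le_of_mul_le_mul_right e2 (by positivity)
  have hone : 1 ≤ ε / 2 * (G' * (X / L ^ 2)) := by
    have e1 : L ≤ X / L ^ 2 := by
      rw [le_div_iff₀ (by positivity)]
      have e0 : L * L ^ 2 = L ^ 3 := by ring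
      rw [e0]
      exact hXbig
    have e2 : 2 / (ε * cl) ≤ L := by linarith
    have e3 : cl * L ≤ G' * (X / L ^ 2) := mul_le_mul hG'1 e1 hL0.le hG0.le
    have e4 : 2 ≤ L * (ε * cl) := by rwa [div_le_iff₀ (by positivity)] at e2
    calc (1 : ℝ) ≤ ε / 2 * (cl * L) := by nlinarith
      _ ≤ _ := mul_le_mul_of_nonneg_left e3 (by positivity)
  have e5 : (sol a b (s m) y X : ℝ) - G' * (X / L ^ 2) =
      ((sol a b (s m) y X : ℝ) - sol a b (s m) v X) + ((sol a b (s m) v X : ℝ) - G' * (X / L ^ 2)) := by ring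
  rw [e5]
  refine (abs_add_le _ _).trans ((add_le_add hnear hG'3).trans ?_)
  linarith

end Pool.Agent.W2helper64.EN
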